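import Mathlib
import Pool.Agent.Y822.CTt
import Pool.Agent.Y822.Par
import Pool.Agent.H373R2.T7.FundC

/-! Statements for the quarter law. -/

set_option autoImplicit false

namespace Pool.Agent.Y822.Q

open Finset Filter
open Pool.Agent.Y822
open Pool.Agent.H373R2.T7 (pz Vz)

open Classical in
/-- Q-PRM: the number of `n ≤ N` such that `n + i` is prime and the other `n + t` have no prime factor `≤ y`;
lower bound, uniformly in the shifts. -/
def PrmStm : Prop := ∀ (k : ℕ) (κ ε : ℝ) (U : ℕ), 0 < κ → κ ≤ 1 → 0 < ε → ε ≤ 1 → ∀ᶠ N : ℕ in atTop,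
  ∀ H : Finset ℕ, H.card = k + 1 → (∀ t ∈ H, t ≤ N) → ∀ i ∈ H,
  (1 - ε) * (N / Real.log N * (PT H (yN κ N) * Vz (yN κ N) ^ k)) - N / Real.log N ^ U ≤
    (((Icc 1 N).filter (fun n => (n + i).Prime ∧ ∀ t ∈ H.erase i, Ro (yN κ N) (n + t))).card : ℝ)

open Classical in
/-- Q-INT: the number of `n ≤ N` such that all `n + t` have no prime factor `≤ y`. -/
def IntStm : Prop := ∀ (k : ℕ) (κ ε : ℝ) (U : ℕ), 0 < κ → κ ≤ 1 → 0 < ε → ε ≤ 1 → ∀ᶠ N : ℕ in atTop,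
  ∀ H : Finset ℕ, H.card = k + 1 →
  |(((Icc 1 N).filter (fun n => ∀ t ∈ H, Ro (yN κ N) (n + t))).card : ℝ) -
    N * (PT H (yN κ N) * Vz (yN κ N) ^ (k + 1))| ≤
    ε * (N * (PT H (yN κ N) * Vz (yN κ N) ^ (k + 1))) + N / Real.log N ^ U

end Pool.Agent.Y822.Q
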