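import Mathlib
import Pool.Agent.Y822.Q.Stm
import Pool.Agent.Y822.F.Base
import Pool.Agent.Y978.QL.Prm

/-! The number of `n ≤ N` such that all `n + t` are rough. -/

set_option autoImplicit false

namespace Pool.Agent.Y822.Q

open Finset Filter
open Pool.Agent.Y822
open Pool.Agent.W41 (JJ)
open Pool.Agent.H373R2.T7 (pz Vz mem_pz)
open Pool.Agent.H387R2.Uni (nuT Adm locT CT)

lemma prod_nuT {H : Finset ℕ} {k : ℕ} (hH : H.card = k + 1) (y : ℕ) :
    ∏ p ∈ pz y, (1 - (nuT H p : ℝ) / p) = PT H y * Vz y ^ (k + 1) := by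
  unfold PT Vz
  rw [← prod_pow, ← prod_mul_distrib]
  refine prod_congr rfl fun p hp => ?_
  have hp2 : (2 : ℝ) ≤ p := by exact_mod_cast (mem_pz.1 hp).2.two_le
  have h1 : (1 - 1 / (p : ℝ)) ≠ 0 := by
    have : 1 / (p : ℝ) ≤ 1 / 2 := one_div_le_one_div_of_le (by norm_num) hp2
    linarith
  unfold locT
  rw [hH, div_mul_cancel₀ _ (pow_ne_zero _ h1)]

/-- forbidden classes -/
def QH (H : Finset ℕ) (p a : ℕ) : Prop := ∃ t ∈ H, p ∣ a + t

open Classical in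
lemma card_QH (H : Finset ℕ) (p : ℕ) (hp : p.Prime) : ((range p).filter (fun a => QH H p a)).card = nuT H p := by
  rw [← Pool.Agent.Y978.QL.card_R H 0 p hp]
  have : (range p).filter (fun a => QH H p a) = (range p).filter (fun a => ∃ t ∈ H, a + t ≡ 0 [MOD p]) := by
    ext a
    simp only [mem_filter, Nat.modEq_zero_iff_dvd, QH]
  rw [this]

open Classical in
lemma filter_QH (H : Finset ℕ) (N y : ℕ) : (Icc 1 N).filter (fun n => ∀ p ∈ pz y, ¬ QH H p (n % p)) =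
    (Icc 1 N).filter (fun n => ∀ t ∈ H, Ro y (n + t)) := by
  refine filter_congr fun n _ => ?_
  have hmod : ∀ p t : ℕ, p ∣ n % p + t ↔ p ∣ n + t := by
    intro p t
    have : n % p + t ≡ n + t [MOD p] := Nat.ModEq.add_right _ (Nat.mod_modEq n p)
    exact ⟨fun h => (Nat.modEq_zero_iff_dvd).1 (this.symm.trans ((Nat.modEq_zero_iff_dvd).2 h)),
      fun h => (Nat.modEq_zero_iff_dvd).1 (this.trans ((Nat.modEq_zero_iff_dvd).2 h))⟩
  constructor
  · intro h t ht p hp hpy hd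
    exact h p (mem_pz.2 ⟨hpy, hp⟩) ⟨t, ht, (hmod p t).2 hd⟩
  · rintro h p hp ⟨t, ht, hd⟩
    exact h t ht p (mem_pz.1 hp).2 (mem_pz.1 hp).1 ((hmod p t).1 hd)

theorem int0 : IntStm := by
  classical
  intro k κ ε U hκ hκ1 hε hε1
  obtain ⟨C0, K0, hC0, hK0, hfl⟩ := Pool.Agent.TH892.SW.fl_set (k + 1)
  obtain ⟨b1, hb1⟩ := exists_pow_lt_of_lt_one hε (show (1 / 2 : ℝ) < 1 by norm_num)
  obtain ⟨b, hbC, hbε⟩ : ∃ b, C0 ≤ b ∧ (1 / 2 : ℝ) ^ b ≤ ε := ⟨max C0 b1, le_max_left _ _,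
    (pow_le_pow_of_le_one (by norm_num) (by norm_num) (le_max_right _ _)).trans hb1.le⟩
  have e1 := ev_logN (ev_pow_exp U (1 / 2) (2 * K0) (by norm_num))
  filter_upwards [yN_facts κ hκ hκ1 3 (2 * (4 * C0 * b + 1)), e1, ev_logN (eventually_ge_atTop (1 : ℝ)),
    eventually_ge_atTop 3] with N hyf h1 hL hN H hH
  obtain ⟨y1, y2, y3, y4, y5⟩ := hyf
  set y := yN κ N with hy
  set L := Real.log N with hLd
  have hL0 : 0 < L := by linarith
  have hN0 : (0 : ℝ) < N := by positivity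
  have key := hfl b hbC y (by omega) N (pz y) (fun p a => QH H p a) (fun p hp => by
    refine ⟨(mem_pz.1 hp).2, (mem_pz.1 hp).1, ?_⟩
    have h3 := nuT_le_card H p
    rw [card_QH H p (mem_pz.1 hp).2]
    omega)
  have hprod : ∏ p ∈ pz y, (1 - (((range p).filter (fun a => QH H p a)).card : ℝ) / p) =
      PT H y * Vz y ^ (k + 1) := by
    rw [← prod_nuT hH y]
    refine prod_congr rfl fun p hp => ?_
    rw [card_QH H p (mem_pz.1 hp).2]
  rw [filter_QH, hprod] at key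
  have key' : |(((Icc 1 N).filter (fun n => ∀ t ∈ H, Ro y (n + t))).card : ℝ) - N * (PT H y * Vz y ^ (k + 1))| ≤
      (1 / 2) ^ b * (N * (PT H y * Vz y ^ (k + 1))) +
        ((JJ y : ℝ) + 2) * ((y : ℝ) ^ (2 * (C0 * b)) * (K0 * (y : ℝ) ^ (2 * (C0 * b)))) := key
  have hV0 : 0 ≤ PT H y * Vz y ^ (k + 1) :=
    mul_nonneg (PT_nonneg _ _) (pow_nonneg (Pool.Agent.Y822.F.Vz_nn y) _)
  have hNV : 0 ≤ (N : ℝ) * (PT H y * Vz y ^ (k + 1)) := by positivity
  have herr : ((JJ y : ℝ) + 2) * ((y : ℝ) ^ (2 * (C0 * b)) * (K0 * (y : ℝ) ^ (2 * (C0 * b)))) ≤ N / L ^ U := by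
    have g1 : ((JJ y : ℝ) + 2) ≤ 2 * y := by
      exact_mod_cast Pool.Agent.W41.JJ_small y (by omega)
    have g2 : (y : ℝ) ^ (2 * (C0 * b)) * (K0 * (y : ℝ) ^ (2 * (C0 * b))) = K0 * (y : ℝ) ^ (4 * C0 * b) := by
      rw [show 4 * C0 * b = 2 * (C0 * b) + 2 * (C0 * b) by ring, pow_add]
      ring
    rw [g2]
    have hyr : (0 : ℝ) ≤ y := Nat.cast_nonneg _
    have g3 : ((y : ℝ) ^ (4 * C0 * b + 1)) ^ 2 ≤ N := by
      rw [← pow_mul, mul_comm]
      exact_mod_cast y4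
    have g4 : (y : ℝ) ^ (4 * C0 * b + 1) ≤ Real.exp (L / 2) := by
      have h5 : (N : ℝ) = Real.exp (L / 2) ^ 2 := by
        rw [sq, ← Real.exp_add, add_halves, hLd, Real.exp_log hN0]
      rw [h5] at g3
      exact (pow_le_pow_iff_left₀ (by positivity) (Real.exp_pos _).le (by norm_num)).1 g3
    rw [le_div_iff₀ (by positivity)]
    calc ((JJ y : ℝ) + 2) * (K0 * (y : ℝ) ^ (4 * C0 * b)) * L ^ U
        ≤ 2 * y * (K0 * (y : ℝ) ^ (4 * C0 * b)) * L ^ U := by gcongr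
      _ = (y : ℝ) ^ (4 * C0 * b + 1) * (2 * K0 * L ^ U) := by rw [pow_succ]; ring
      _ ≤ Real.exp (L / 2) * Real.exp (1 / 2 * L) := by
          apply mul_le_mul g4 h1 (by positivity) (Real.exp_pos _).le
      _ = N := by
          rw [← Real.exp_add]
          have : L / 2 + 1 / 2 * L = L := by ring
          rw [this, hLd, Real.exp_log hN0]
  have h2 : (1 / 2 : ℝ) ^ b * (N * (PT H y * Vz y ^ (k + 1))) ≤ ε * (N * (PT H y * Vz y ^ (k + 1))) :=
    mul_le_mul_of_nonneg_right hbε hNV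
  refine le_trans ?_ (add_le_add h2 herr)
  convert key' using 6

end Pool.Agent.Y822.Q
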