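import Mathlib
import Pool.Agent.Y822.Dual
import Pool.Agent.Y822.Main0
import Pool.Agent.Y822.CTu

/-! Combinatorial lemmas for the quarter law. -/

set_option autoImplicit false

namespace Pool.Agent.Y822.Q

open Finset Filter Topology
open Pool.Agent.Y822
open Pool.Agent.H373R2.T7 (pz Vz mem_pz)
open Pool.Agent.H387R2.Uni (nuT Adm locT CT)

lemma exists_x (k : ℕ) : ∃ x : ℝ, 0 < x ∧ x ≤ 1 / 16 ∧
    1 / 4 * (1 - 8 * x) + (k + 1 / 2) * (1 + x) ^ (k + 2) ≤ (k + 1) * (1 - x) ^ (k + 1) * (1 - 8 * x) := by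
  have hc : ContinuousAt (fun x : ℝ => 1 / 4 * (1 - 8 * x) + (k + 1 / 2) * (1 + x) ^ (k + 2)) 0 := by fun_prop
  have hc' : ContinuousAt (fun x : ℝ => ((k : ℝ) + 1) * (1 - x) ^ (k + 1) * (1 - 8 * x)) 0 := by fun_prop
  have h1 : ∀ᶠ x in 𝓝 (0 : ℝ), 1 / 4 * (1 - 8 * x) + (k + 1 / 2) * (1 + x) ^ (k + 2) <
      ((k : ℝ) + 1) * (1 - x) ^ (k + 1) * (1 - 8 * x) := by
    refine hc.eventually_lt hc' ?_
    norm_num
    linarith
  obtain ⟨δ, hδ, h2⟩ := Metric.eventually_nhds_iff.1 h1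
  refine ⟨min (δ / 2) (1 / 16), by positivity, min_le_right _ _, ?_⟩
  refine (h2 ?_).le
  rw [Real.dist_eq, sub_zero, abs_of_pos (by positivity)]
  exact (min_le_left _ _).trans_lt (by linarith)

lemma choose_bd (n j : ℕ) (h : j + 1 ≤ n) : n * n.choose j ≤ (j + 1) ^ 2 * n.choose (j + 1) := by
  have h1 := Nat.choose_succ_right_eq n j
  have h2 : n ≤ (j + 1) * (n - j) := by
    obtain ⟨m, rfl⟩ : ∃ m, n = j + 1 + m := ⟨n - (j + 1), by omega⟩
    have : j + 1 + m - j = 1 + m := by omega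
    rw [this]
    nlinarith
  calc n * n.choose j ≤ (j + 1) * (n - j) * n.choose j := Nat.mul_le_mul_right _ h2
    _ = (j + 1) * (n.choose j * (n - j)) := by ring
    _ = (j + 1) * (n.choose (j + 1) * (j + 1)) := by rw [h1]
    _ = _ := by ring

/-- few sets are bad, also with one shift treated by a weight of its own -/
theorem few_bad2 {N : ℕ} {g r : ℕ → ℝ} {e : ℕ → ℕ → ℝ} {Z : (ℕ → ℝ) → ℕ → ℝ} {x K : ℝ} (hK : 0 ≤ K)
    (he : ∀ i n, 0 ≤ e i n ∧ e i n ≤ 1) (hg : ∀ n, 0 ≤ g n ∧ g n ≤ 1)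
    (hr : ∀ n, 0 ≤ r n ∧ r n ≤ 1)
    (hfew : ∀ f : ℕ → ℝ, (∀ n, |f n| ≤ 1) → ∀ S : Finset ℕ, (∀ a ∈ S, a ≤ N ∧ x < Z f a) →
      (S.card : ℝ) ≤ K)
    (j : ℕ) (A : Finset ℕ) (hA : ∀ a ∈ A, a ≤ N) (Bad : Finset (Finset ℕ))
    (hBad : ∀ H ∈ Bad, H ∈ A.powersetCard (j + 2) ∧
      ¬ (Good (fun _ => (1 : ℝ)) g r Z x H ∧ ∀ i ∈ H, Good (e i) g r Z x (H.erase i))) :
    (Bad.card : ℝ) ≤ (A.card.choose (j + 1) : ℝ) * ((2 ^ (j + 1) + (j + 1) ^ 2 * 2 ^ j) * K) := by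
  classical
  rcases Bad.eq_empty_or_nonempty with rfl | hne
  · rw [card_empty, Nat.cast_zero]
    positivity
  have hAc : j + 1 ≤ A.card := by
    obtain ⟨H, hH⟩ := hne
    have := mem_powersetCard.1 (hBad H hH).1
    have h2 := card_le_card this.1
    omega
  have h0 := few_bad (N := N) hK (fun _ => ⟨zero_le_one, le_rfl⟩ : ∀ n : ℕ, (0 : ℝ) ≤ (fun _ : ℕ => (1 : ℝ)) n ∧ (fun _ : ℕ => (1 : ℝ)) n ≤ 1)
    hg hr hfew (j + 1) A hA (Bad.filter (fun H => ¬ Good (fun _ => (1 : ℝ)) g r Z x H)) (fun H hH => by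
      rw [mem_filter] at hH
      exact ⟨(hBad H hH.1).1, hH.2⟩)
  have h1 : ∀ i ∈ A, ((Bad.filter (fun H => i ∈ H ∧ ¬ Good (e i) g r Z x (H.erase i))).card : ℝ) ≤
      (A.card.choose j : ℝ) * (2 ^ j * K) := by
    intro i hi
    set B := Bad.filter (fun H => i ∈ H ∧ ¬ Good (e i) g r Z x (H.erase i)) with hB
    have hinj : Set.InjOn (fun H : Finset ℕ => H.erase i) (B : Set (Finset ℕ)) := by
      intro H hH H' hH' heq
      rw [mem_coe, hB, mem_filter] at hH hH'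
      simp only at heq
      rw [← insert_erase hH.2.1, ← insert_erase hH'.2.1, heq]
    rw [← card_image_of_injOn hinj]
    refine few_bad (N := N) hK (he i) hg hr hfew j A hA _ (fun H' hH' => ?_)
    rw [mem_image] at hH'
    obtain ⟨H, hH, rfl⟩ := hH'
    rw [hB, mem_filter] at hH
    have h2 := mem_powersetCard.1 (hBad H hH.1).1
    refine ⟨mem_powersetCard.2 ⟨(erase_subset _ _).trans h2.1, ?_⟩, hH.2.2⟩
    rw [card_erase_of_mem hH.2.1, h2.2]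
    omega
  have hcov : Bad ⊆ (Bad.filter (fun H => ¬ Good (fun _ => (1 : ℝ)) g r Z x H)) ∪
      A.biUnion (fun i => Bad.filter (fun H => i ∈ H ∧ ¬ Good (e i) g r Z x (H.erase i))) := by
    intro H hH
    obtain ⟨b1, b2⟩ := hBad H hH
    rw [mem_union, mem_filter, mem_biUnion]
    by_cases h3 : Good (fun _ => (1 : ℝ)) g r Z x H
    · right
      have h4 : ¬ ∀ i ∈ H, Good (e i) g r Z x (H.erase i) := fun h => b2 ⟨h3, h⟩
      push Not at h4
      obtain ⟨i, hi, h5⟩ := h4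
      exact ⟨i, (mem_powersetCard.1 b1).1 hi, mem_filter.2 ⟨hH, hi, h5⟩⟩
    · exact Or.inl ⟨hH, h3⟩
  have h2 : (Bad.card : ℝ) ≤ ((Bad.filter (fun H => ¬ Good (fun _ => (1 : ℝ)) g r Z x H)).card : ℝ) +
      ∑ i ∈ A, ((Bad.filter (fun H => i ∈ H ∧ ¬ Good (e i) g r Z x (H.erase i))).card : ℝ) := by
    have h3 := (card_le_card hcov).trans (card_union_le _ _)
    have h4 := h3.trans (Nat.add_le_add_left card_biUnion_le _)
    exact_mod_cast h4
  have h3 := sum_le_sum h1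
  rw [sum_const, nsmul_eq_mul] at h3
  have h4 : (A.card : ℝ) * ((A.card.choose j : ℝ) * (2 ^ j * K)) ≤
      ((j + 1) ^ 2 * (A.card.choose (j + 1) : ℝ)) * (2 ^ j * K) := by
    rw [← mul_assoc]
    apply mul_le_mul_of_nonneg_right _ (by positivity)
    have := choose_bd A.card j hAc
    exact_mod_cast this
  have h5 : (A.card.choose (j + 1) : ℝ) * ((2 ^ (j + 1) + (j + 1) ^ 2 * 2 ^ j) * K) =
      (A.card.choose (j + 1) : ℝ) * (2 ^ (j + 1) * K) + ((j + 1) ^ 2 * (A.card.choose (j + 1) : ℝ)) * (2 ^ j * K) := by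
    ring
  rw [h5]
  linarith

open Classical in
/-- the number of `n ≤ N` such that at least a quarter of the `n + i` are primes and all are rough -/
noncomputable def cnt (H : Finset ℕ) (z N : ℕ) : ℕ :=
  ((Icc 1 N).filter (fun n => H.card ≤ 4 * (H.filter (fun i => (n + i).Prime)).card ∧ ∀ t ∈ H, Ro z (n + t))).card

open Classical in
lemma T_le {g : ℕ → ℝ} (hg : ∀ m, 0 ≤ g m ∧ g m ≤ 1) {z : ℕ} (hgR : ∀ m, g m ≠ 0 → Ro z m) (H : Finset ℕ) (N : ℕ) :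
    ∑ n ∈ Icc 1 N, (∏ t ∈ H, g (n + t)) * (4 * (∑ i ∈ H, eP (n + i)) - (H.card : ℝ) + 1 / 2) ≤
      4 * H.card * cnt H z N + cnt H z N := by
  have hsum : ∀ n : ℕ, ∑ i ∈ H, eP (n + i) = ((H.filter (fun i => (n + i).Prime)).card : ℝ) := by
    intro n
    unfold eP
    rw [← sum_filter, sum_const, nsmul_eq_mul, mul_one]
  have hpt : ∀ n ∈ Icc 1 N, (∏ t ∈ H, g (n + t)) * (4 * (∑ i ∈ H, eP (n + i)) - (H.card : ℝ) + 1 / 2) ≤
      if (H.card ≤ 4 * (H.filter (fun i => (n + i).Prime)).card ∧ ∀ t ∈ H, Ro z (n + t)) then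
        4 * (H.card : ℝ) + 1 else 0 := by
    intro n _
    have hG0 : 0 ≤ ∏ t ∈ H, g (n + t) := prod_nonneg fun t _ => (hg _).1
    have hG1 : ∏ t ∈ H, g (n + t) ≤ 1 := prod_le_one (fun t _ => (hg _).1) fun t _ => (hg _).2
    rw [hsum n]
    set q := (H.filter (fun i => (n + i).Prime)).card with hq
    have hqH : (q : ℝ) ≤ H.card := by exact_mod_cast card_filter_le _ _
    have hq0 : (0 : ℝ) ≤ q := Nat.cast_nonneg _
    have hH0 : (0 : ℝ) ≤ H.card := Nat.cast_nonneg _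
    split_ifs with h
    · have h1 : 4 * (q : ℝ) - H.card + 1 / 2 ≤ 4 * H.card + 1 := by linarith
      by_cases h2 : 0 ≤ 4 * (q : ℝ) - H.card + 1 / 2
      · calc (∏ t ∈ H, g (n + t)) * (4 * (q : ℝ) - H.card + 1 / 2) ≤ 1 * (4 * (q : ℝ) - H.card + 1 / 2) :=
              mul_le_mul_of_nonneg_right hG1 h2
          _ ≤ _ := by linarith
      · have := mul_nonpos_of_nonneg_of_nonpos hG0 (not_le.1 h2).le
        linarith
    · by_cases h2 : ∀ t ∈ H, Ro z (n + t)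
      · have h3 : 4 * q < H.card := by
          by_contra hle
          exact h ⟨not_lt.1 hle, h2⟩
        have h4 : 4 * (q : ℝ) + 1 ≤ H.card := by exact_mod_cast h3
        exact mul_nonpos_of_nonneg_of_nonpos hG0 (by linarith)
      · push Not at h2
        obtain ⟨t, ht, h3⟩ := h2
        have h4 : ∏ t ∈ H, g (n + t) = 0 := by
          refine prod_eq_zero ht ?_
          by_contra h5
          exact h3 (hgR _ h5)
        rw [h4, zero_mul]
  refine (sum_le_sum hpt).trans (le_of_eq ?_)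
  rw [← sum_filter, sum_const, nsmul_eq_mul]
  unfold cnt
  ring

lemma T_ge {g : ℕ → ℝ} (hg : ∀ m, 0 ≤ g m ∧ g m ≤ 1) {N : ℕ} {M E : ℝ} (hM : 1 ≤ M) (hE : 0 ≤ E)
    (hgP : ∀ m : ℕ, m ≤ 2 * N → m.Prime → E < m → g m = 1 / M) (H : Finset ℕ) (hH : ∀ t ∈ H, t ≤ N) :
    ∑ i ∈ H, (4 / M) * (∑ n ∈ Icc 1 N, eP (n + i) * ∏ t ∈ H.erase i, g (n + t) - E) -
      ((H.card : ℝ) - 1 / 2) * ∑ n ∈ Icc 1 N, ∏ t ∈ H, g (n + t) ≤
    ∑ n ∈ Icc 1 N, (∏ t ∈ H, g (n + t)) * (4 * (∑ i ∈ H, eP (n + i)) - (H.card : ℝ) + 1 / 2) := by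
  have hM0 : 0 < M := by linarith
  have e1 : ∑ n ∈ Icc 1 N, (∏ t ∈ H, g (n + t)) * (4 * (∑ i ∈ H, eP (n + i)) - (H.card : ℝ) + 1 / 2) =
      ∑ i ∈ H, 4 * ∑ n ∈ Icc 1 N, (∏ t ∈ H, g (n + t)) * eP (n + i) -
      ((H.card : ℝ) - 1 / 2) * ∑ n ∈ Icc 1 N, ∏ t ∈ H, g (n + t) := by
    rw [← mul_sum, sum_comm, mul_sum, mul_sum, ← sum_sub_distrib]
    refine sum_congr rfl fun n _ => ?_
    rw [← mul_sum]
    ring
  rw [e1]
  refine sub_le_sub_right (sum_le_sum fun i hi => ?_) _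
  have hcard : (((Icc 1 N).filter (fun n : ℕ => ((n + i : ℕ) : ℝ) ≤ E)).card : ℝ) ≤ E := by
    have h1 : (Icc 1 N).filter (fun n : ℕ => ((n + i : ℕ) : ℝ) ≤ E) ⊆ Icc 1 ⌊E⌋₊ := by
      intro n hn
      rw [mem_filter, mem_Icc] at hn
      rw [mem_Icc]
      refine ⟨hn.1.1, Nat.le_floor ?_⟩
      have := hn.2
      push_cast at this
      have h0 : (0 : ℝ) ≤ i := Nat.cast_nonneg _
      linarith
    have h2 := card_le_card h1
    rw [Nat.card_Icc, Nat.add_sub_cancel] at h2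
    have h3 : (((Icc 1 N).filter (fun n : ℕ => ((n + i : ℕ) : ℝ) ≤ E)).card : ℝ) ≤ ⌊E⌋₊ := by exact_mod_cast h2
    exact h3.trans (Nat.floor_le hE)
  have hpt : ∀ n ∈ Icc 1 N, 1 / M * (eP (n + i) * ∏ t ∈ H.erase i, g (n + t)) -
      1 / M * (if ((n + i : ℕ) : ℝ) ≤ E then (1 : ℝ) else 0) ≤ (∏ t ∈ H, g (n + t)) * eP (n + i) := by
    intro n hn
    rw [mem_Icc] at hn
    have hG0 : 0 ≤ ∏ t ∈ H.erase i, g (n + t) := prod_nonneg fun t _ => (hg _).1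
    have hG1 : ∏ t ∈ H.erase i, g (n + t) ≤ 1 := prod_le_one (fun t _ => (hg _).1) fun t _ => (hg _).2
    have hP : ∏ t ∈ H, g (n + t) = g (n + i) * ∏ t ∈ H.erase i, g (n + t) := (mul_prod_erase H _ hi).symm
    obtain ⟨p0, p1⟩ := eP_bd (n + i)
    obtain ⟨g0, g1⟩ := hg (n + i)
    have hM1 : 0 ≤ 1 / M := by positivity
    split_ifs with h
    · have h1 : eP (n + i) * ∏ t ∈ H.erase i, g (n + t) ≤ 1 := mul_le_one₀ p1 hG0 hG1
      have h2 : 1 / M * (eP (n + i) * ∏ t ∈ H.erase i, g (n + t)) ≤ 1 / M * 1 := mul_le_mul_of_nonneg_left h1 hM1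
      have h3 : 0 ≤ (∏ t ∈ H, g (n + t)) * eP (n + i) := by
        rw [hP]
        positivity
      linarith
    · rw [mul_zero, sub_zero]
      by_cases hp : (n + i).Prime
      · have h1 := hgP (n + i) (by have := hH i hi; omega) hp (not_le.1 h)
        rw [hP, h1]
        apply le_of_eq
        ring
      · have : eP (n + i) = 0 := by unfold eP; rw [if_neg hp]
        rw [this]
        simp
  have h1 := sum_le_sum hpt
  rw [sum_sub_distrib, ← mul_sum, ← mul_sum, ← sum_filter, sum_const, nsmul_eq_mul, mul_one] at h1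
  have h2 : 1 / M * (((Icc 1 N).filter (fun n : ℕ => ((n + i : ℕ) : ℝ) ≤ E)).card : ℝ) ≤ 1 / M * E :=
    mul_le_mul_of_nonneg_left hcard (by positivity)
  have h3 : 4 / M * (∑ n ∈ Icc 1 N, eP (n + i) * ∏ t ∈ H.erase i, g (n + t) - E) =
      4 * (1 / M * ∑ n ∈ Icc 1 N, eP (n + i) * ∏ t ∈ H.erase i, g (n + t) - 1 / M * E) := by ring
  rw [h3]
  linarith

/-- comparison of the constants -/
lemma CT_le {N y k : ℕ} {L : ℝ} (hL : L = Real.log N) (hL1 : 1 ≤ L) (hy3 : 3 ≤ y) (hyL : L ^ 3 ≤ y)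
    (hLk : 4 * ((k : ℝ) + 1) ^ 3 ≤ L) {T : Finset ℕ} (hT : T.card = k + 1) (hTN : ∀ t ∈ T, t ≤ N) :
    CT T ≤ 2 * PT T y := by
  have g1 := CT_up T N y hTN (by omega)
  rw [hT] at g1
  refine g1.trans (mul_le_mul_of_nonneg_right ?_ (PT_nonneg _ _))
  have hy0 : (0 : ℝ) < y := by positivity
  have hL0 : 0 < L := by linarith
  have g2 : (Nat.log y N : ℝ) ≤ L := by
    have g3 : (Nat.log y N : ℝ) ≤ Real.logb y (N : ℝ) := Real.natLog_le_logb _ _
    have g4 : 1 ≤ Real.log y := by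
      rw [Real.le_log_iff_exp_le hy0]
      have h5 : (3 : ℝ) ≤ y := by exact_mod_cast hy3
      have := Real.exp_one_lt_d9
      linarith
    refine g3.trans ?_
    rw [Real.logb, ← hL]
    exact div_le_self hL0.le g4
  have g6 : 2 * (((k + 1 : ℕ) : ℝ)) ^ 3 * (Nat.log y N) / y ≤ 1 / 2 := by
    rw [div_le_div_iff₀ hy0 (by norm_num)]
    have g7 : (((k + 1 : ℕ) : ℝ)) ^ 3 = ((k : ℝ) + 1) ^ 3 := by push_cast; ring
    rw [g7]
    calc 2 * ((k : ℝ) + 1) ^ 3 * (Nat.log y N) * 2 = 4 * ((k : ℝ) + 1) ^ 3 * (Nat.log y N) := by ring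
      _ ≤ L * L := mul_le_mul hLk g2 (Nat.cast_nonneg _) hL0.le
      _ ≤ L ^ 3 := by
          rw [pow_succ, sq]
          exact le_mul_of_one_le_right (by positivity) hL1
      _ ≤ 1 * y := by rw [one_mul]; exact hyL
  calc Real.exp (2 * (((k + 1 : ℕ) : ℝ)) ^ 3 * (Nat.log y N) / y) ≤ Real.exp (1 / 2) :=
        Real.exp_le_exp.2 g6
    _ ≤ 2 := by
        have h5 := one_sub_ge_exp (t := 1 / 4) (by norm_num) (by norm_num)
        have h6 : Real.exp (1 / 2) * Real.exp (-(2 * (1 / 4))) = 1 := by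
          rw [← Real.exp_add]; norm_num
        have h7 := Real.exp_pos (1 / 2)
        have h8 : 1 / 2 ≤ Real.exp (-(2 * (1 / 4))) := by
          have := Real.add_one_le_exp (-(2 * (1 / 4) : ℝ))
          linarith
        nlinarith

end Pool.Agent.Y822.Q
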