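import Mathlib
import Pool.Agent.Y822.Inn
import Pool.Agent.Y822.Dual
import Pool.Agent.Y822.Sel
import Pool.Agent.W41.Sieve

/-! The sieve step: the fundamental lemma up to `z₀` and arbitrary sieve weights above `z₀`. -/

set_option autoImplicit false

namespace Pool.Agent.Y822.Q

open Finset Filter
open Pool.Agent.Y822
open Pool.Agent.W41 (JJ JJ_lt JJ_le)

/-- divisor sum -/
noncomputable def th (c : ℕ → ℝ) (Z m : ℕ) : ℝ := ∑ d ∈ Icc 1 Z, c d * (if d ∣ m then 1 else 0)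

lemma ro_rin {y z m : ℕ} (h : y ≤ z) : ro y m * rin (PP y z) m = ro z m := by
  classical
  unfold ro rin
  by_cases h1 : Ro z m
  · have h2 : Ro y m := fun p hp hpy => h1 p hp (hpy.trans h)
    have h3 : ∀ p ∈ PP y z, ¬ p ∣ m := fun p hp => h1 p (mem_PP.1 hp).2 (mem_PP.1 hp).1.2
    rw [if_pos h1, if_pos h2, if_pos h3, one_mul]
  · rw [if_neg h1]
    by_cases h2 : Ro y m
    · rw [if_pos h2, if_neg, mul_zero]
      intro h3
      apply h1
      intro p hp hpz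
      by_cases hpy : p ≤ y
      · exact h2 p hp hpy
      · exact h3 p (mem_PP.2 ⟨⟨by omega, hpz⟩, hp⟩)
    · rw [if_neg h2, zero_mul]

lemma pf_mul_prod {d : ℕ} (hd : d ≠ 0) {T : Finset ℕ} (hT : ∀ p ∈ T, p.Prime) :
    (d * ∏ p ∈ T, p).primeFactors = d.primeFactors ∪ T := by
  rw [Nat.primeFactors_mul hd (prod_ne_zero_iff.2 fun p hp => (hT p hp).ne_zero), Nat.primeFactors_prod hT]

/-- the double sum of errors is part of the large sieve sum -/
theorem err_le {N y z₀ Z E D t : ℕ} (hD : Z * E ≤ D) (hyz : y ≤ z₀) (f : ℕ → ℝ) :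
    ∑ d ∈ SD z₀ Z, (3 : ℝ) ^ d.primeFactors.card * ∑ T ∈ (PP y z₀).powerset.filter
      (fun T : Finset ℕ => ∏ p ∈ T, p ≤ E), |rr y N f t (d * ∏ p ∈ T, p)| ≤ LD y D N f t := by
  classical
  set Q := (PP y z₀).powerset.filter (fun T : Finset ℕ => ∏ p ∈ T, p ≤ E) with hQ
  have hQp : ∀ T ∈ Q, ∀ p ∈ T, p.Prime ∧ y < p ∧ p ≤ z₀ := by
    intro T hT p hp
    rw [hQ, mem_filter, mem_powerset] at hT
    have h1 := mem_PP.1 (hT.1 hp)
    exact ⟨h1.2, h1.1.1, h1.1.2⟩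
  have hdp : ∀ d ∈ SD z₀ Z, 1 ≤ d ∧ Squarefree d ∧ d ≤ Z ∧ ∀ p ∈ d.primeFactors, z₀ < p := by
    intro d hd
    obtain ⟨g1, g2, g3⟩ := mem_SD.1 hd
    refine ⟨g1.1, g2, g1.2, fun p hp => ?_⟩
    by_contra hle
    exact g3 p (Nat.prime_of_mem_primeFactors hp) (not_lt.1 hle) (Nat.dvd_of_mem_primeFactors hp)
  have hpf : ∀ d ∈ SD z₀ Z, ∀ T ∈ Q, (d * ∏ p ∈ T, p).primeFactors = d.primeFactors ∪ T := by
    intro d hd T hT
    have h1 := (hdp d hd).1
    exact pf_mul_prod (by omega) fun p hp => (hQp T hT p hp).1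
  simp_rw [mul_sum]
  rw [Finset.sum_sigma' (f := fun d T => (3 : ℝ) ^ d.primeFactors.card * |rr y N f t (d * ∏ p ∈ T, p)|)]
  have hinj : Set.InjOn (fun x : (_ : ℕ) × Finset ℕ => x.1 * ∏ p ∈ x.2, p)
      ((SD z₀ Z).sigma (fun _ => Q) : Finset ((_ : ℕ) × Finset ℕ)) := by
    rintro ⟨d, T⟩ hdT ⟨d', T'⟩ hdT' heq
    rw [mem_coe, mem_sigma] at hdT hdT'
    simp only at hdT hdT' heq
    have h1 := hpf d hdT.1 T hdT.2
    have h2 := hpf d' hdT'.1 T' hdT'.2
    rw [heq, h2] at h1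
    obtain ⟨_, g2, _, g4⟩ := hdp d hdT.1
    obtain ⟨_, g2', _, g4'⟩ := hdp d' hdT'.1
    have hTT : T = T' := by
      ext p
      constructor
      · intro hp
        have h3 : p ∈ d'.primeFactors ∪ T' := by rw [h1]; exact mem_union_right _ hp
        rcases mem_union.1 h3 with h | h
        · have := g4' p h
          have := (hQp T hdT.2 p hp).2.2
          omega
        · exact h
      · intro hp
        have h3 : p ∈ d.primeFactors ∪ T := by rw [← h1]; exact mem_union_right _ hp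
        rcases mem_union.1 h3 with h | h
        · have := g4 p h
          have := (hQp T' hdT'.2 p hp).2.2
          omega
        · exact h
    have hdd : d.primeFactors = d'.primeFactors := by
      ext p
      constructor
      · intro hp
        have h3 : p ∈ d'.primeFactors ∪ T' := by rw [h1]; exact mem_union_left _ hp
        rcases mem_union.1 h3 with h | h
        · exact h
        · have := g4 p hp
          have := (hQp T' hdT'.2 p h).2.2
          omega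
      · intro hp
        have h3 : p ∈ d.primeFactors ∪ T := by rw [← h1]; exact mem_union_left _ hp
        rcases mem_union.1 h3 with h | h
        · exact h
        · have := g4' p hp
          have := (hQp T hdT.2 p h).2.2
          omega
    have : d = d' := by
      rw [← Nat.prod_primeFactors_of_squarefree g2, ← Nat.prod_primeFactors_of_squarefree g2', hdd]
    rw [this, hTT]
  have hmem : ∀ x ∈ (SD z₀ Z).sigma (fun _ => Q), x.1 * ∏ p ∈ x.2, p ∈ SD y D := by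
    rintro ⟨d, T⟩ hx
    rw [mem_sigma] at hx
    simp only at hx ⊢
    obtain ⟨g1, g2, g3, g4⟩ := hdp d hx.1
    have hT0 : 0 < ∏ p ∈ T, p := prod_pos fun p hp => (hQp T hx.2 p hp).1.pos
    rw [mem_SD]
    refine ⟨⟨Nat.mul_pos g1 hT0, ?_⟩, ?_, ?_⟩
    · have h1 : ∏ p ∈ T, p ≤ E := by
        have := hx.2
        rw [hQ, mem_filter] at this
        exact this.2
      exact (Nat.mul_le_mul g3 h1).trans hD
    · have hcop : Nat.Coprime d (∏ p ∈ T, p) := by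
        refine Nat.Coprime.prod_right fun p hp => ?_
        refine ((hQp T hx.2 p hp).1.coprime_iff_not_dvd.2 ?_).symm
        intro h
        have h1 := g4 p (Nat.mem_primeFactors.2 ⟨(hQp T hx.2 p hp).1, h, by omega⟩)
        have h2 := (hQp T hx.2 p hp).2.2
        omega
      refine (Nat.squarefree_mul hcop).2 ⟨g2, ?_⟩
      exact Finset.squarefree_prod_of_pairwise_isCoprime (fun p hp q hq hpq => by
        exact Nat.coprime_iff_isRelPrime.1 ((Nat.coprime_primes (hQp T hx.2 p hp).1 (hQp T hx.2 q hq).1).2 hpq))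
        (fun p hp => (hQp T hx.2 p hp).1.prime.squarefree)
    · intro p hp hpy hpd
      have h1 : p ∈ (d * ∏ p ∈ T, p).primeFactors :=
        Nat.mem_primeFactors.2 ⟨hp, hpd, (Nat.mul_pos g1 hT0).ne'⟩
      rw [hpf d hx.1 T hx.2, mem_union] at h1
      rcases h1 with h1 | h1
      · have := g4 p h1
        omega
      · have := (hQp T hx.2 p h1).2.1
        omega
  calc ∑ x ∈ (SD z₀ Z).sigma (fun _ => Q), (3 : ℝ) ^ x.1.primeFactors.card * |rr y N f t (x.1 * ∏ p ∈ x.2, p)|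
      ≤ ∑ x ∈ (SD z₀ Z).sigma (fun _ => Q), (3 : ℝ) ^ (x.1 * ∏ p ∈ x.2, p).primeFactors.card *
          |rr y N f t (x.1 * ∏ p ∈ x.2, p)| := by
        refine sum_le_sum fun x hx => ?_
        rw [mem_sigma] at hx
        refine mul_le_mul_of_nonneg_right (pow_le_pow_right₀ (by norm_num) ?_) (abs_nonneg _)
        rw [hpf x.1 hx.1 x.2 hx.2]
        exact card_le_card subset_union_left
    _ = ∑ e ∈ ((SD z₀ Z).sigma (fun _ => Q)).image (fun x => x.1 * ∏ p ∈ x.2, p),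
          (3 : ℝ) ^ e.primeFactors.card * |rr y N f t e| := by
        rw [Finset.sum_image hinj]
    _ ≤ ∑ e ∈ SD y D, (3 : ℝ) ^ e.primeFactors.card * |rr y N f t e| := by
        apply sum_le_sum_of_subset_of_nonneg
        · intro e he
          rw [mem_image] at he
          obtain ⟨x, hx, rfl⟩ := he
          exact hmem x hx
        · intro _ _ _
          positivity
    _ = _ := rfl

/-- **the step** -/
theorem stepQ : ∃ C0 : ℕ, 1 ≤ C0 ∧ ∀ b y z₀ Z N D : ℕ, C0 ≤ b → C0 ≤ y → y ≤ z₀ →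
    Z * (2 ^ 2 ^ JJ z₀) ^ (C0 * b) ≤ D → ∀ c : ℕ → ℝ, Co z₀ c → ∀ f : ℕ → ℝ, (∀ n, 0 ≤ f n) → ∀ t : ℕ,
    |∑ n ∈ Icc 1 N, f n * (ro z₀ (n + t) * th c Z (n + t)) -
      (∑ d ∈ Icc 1 Z, c d / d) * (VP (PP y z₀) * ∑ n ∈ Icc 1 N, f n * ro y (n + t))| ≤
      (1 / 2) ^ b * EE z₀ Z * (VP (PP y z₀) * ∑ n ∈ Icc 1 N, f n * ro y (n + t)) +
        ((JJ z₀ : ℕ) + 2) * LD y D N f t := by
  obtain ⟨C0, hC0, INN⟩ := inner
  refine ⟨C0, hC0, ?_⟩
  intro b y z₀ Z N D hb hy hyz hD c hc f hf t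
  have hP : ∀ p ∈ PP y z₀, p.Prime ∧ y < p ∧ p ≤ 2 ^ 2 ^ JJ z₀ := by
    intro p hp
    obtain ⟨⟨h1, h2⟩, h3⟩ := mem_PP.1 hp
    exact ⟨h3, h1, h2.trans (JJ_lt z₀).le⟩
  set W := ∑ n ∈ Icc 1 N, f n * ro y (n + t) with hW
  have hW' : W0 y N f t = W := rfl
  have hW0 : 0 ≤ W := sum_nonneg fun n _ => mul_nonneg (hf n) (ro_nonneg _ _)
  have hV : 0 ≤ VP (PP y z₀) := by
    unfold VP
    refine prod_nonneg fun p hp => ?_
    have hp1 : (1 : ℝ) ≤ p := by exact_mod_cast (mem_PP.1 hp).2.one_lt.le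
    have : 1 / (p : ℝ) ≤ 1 := by rw [div_le_one (by linarith)]; exact hp1
    linarith
  -- expansion
  have e1 : ∑ n ∈ Icc 1 N, f n * (ro z₀ (n + t) * th c Z (n + t)) =
      ∑ d ∈ SD z₀ Z, c d * Aw y N (PP y z₀) f t d := by
    have h1 : ∀ n ∈ Icc 1 N, f n * (ro z₀ (n + t) * th c Z (n + t)) =
        ∑ d ∈ SD z₀ Z, c d * ((f n * ro y (n + t) * rin (PP y z₀) (n + t)) * (if d ∣ n + t then 1 else 0)) := by
      intro n _
      unfold th
      rw [sum_SD hc (fun d => if d ∣ n + t then (1 : ℝ) else 0), ← ro_rin hyz, mul_sum, mul_sum]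
      refine sum_congr rfl fun d _ => ?_
      ring
    rw [sum_congr rfl h1, sum_comm]
    refine sum_congr rfl fun d _ => ?_
    unfold Aw
    rw [mul_sum]
  have e2 : (∑ d ∈ Icc 1 Z, c d / d) * (VP (PP y z₀) * W) =
      ∑ d ∈ SD z₀ Z, c d * (W * VP (PP y z₀) * (1 / (d : ℝ))) := by
    have h1 : ∑ d ∈ Icc 1 Z, c d / d = ∑ d ∈ SD z₀ Z, c d * (1 / (d : ℝ)) := by
      rw [← sum_SD hc (fun d => 1 / (d : ℝ))]
      exact sum_congr rfl fun d _ => by ring
    rw [h1, sum_mul]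
    refine sum_congr rfl fun d _ => ?_
    ring
  rw [e1, e2, ← sum_sub_distrib]
  have hterm : ∀ d ∈ SD z₀ Z, |c d * Aw y N (PP y z₀) f t d - c d * (W * VP (PP y z₀) * (1 / (d : ℝ)))| ≤
      (1 / 2) ^ b * (VP (PP y z₀) * W) * (|c d| / d) + ((JJ z₀ : ℕ) + 2) * ((3 : ℝ) ^ d.primeFactors.card *
        ∑ T ∈ (PP y z₀).powerset.filter (fun T : Finset ℕ => ∏ p ∈ T, p ≤ (2 ^ 2 ^ JJ z₀) ^ (C0 * b)),
          |rr y N f t (d * ∏ p ∈ T, p)|) := by
    intro d hd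
    obtain ⟨g1, g2, g3⟩ := mem_SD.1 hd
    have h1 := INN b (JJ z₀) y N (PP y z₀) hb hy hP f hf t d g1.1 (fun p hp hpd =>
      g3 p (mem_PP.1 hp).2 (mem_PP.1 hp).1.2 hpd)
    rw [hW'] at h1
    rw [← mul_sub, abs_mul]
    have h2 := mul_le_mul_of_nonneg_left h1 (abs_nonneg (c d))
    refine h2.trans ?_
    rw [mul_add]
    have h3 : |c d| * ((1 / 2) ^ b * (W * VP (PP y z₀) * (1 / (d : ℝ)))) =
        (1 / 2) ^ b * (VP (PP y z₀) * W) * (|c d| / d) := by ring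
    rw [h3]
    have hS : 0 ≤ ∑ T ∈ (PP y z₀).powerset.filter (fun T : Finset ℕ => ∏ p ∈ T, p ≤ (2 ^ 2 ^ JJ z₀) ^ (C0 * b)),
          |rr y N f t (d * ∏ p ∈ T, p)| := sum_nonneg fun _ _ => abs_nonneg _
    have h4 : |c d| * (((JJ z₀ : ℕ) + 2) * ∑ T ∈ (PP y z₀).powerset.filter
        (fun T : Finset ℕ => ∏ p ∈ T, p ≤ (2 ^ 2 ^ JJ z₀) ^ (C0 * b)), |rr y N f t (d * ∏ p ∈ T, p)|) ≤
        ((JJ z₀ : ℕ) + 2) * ((3 : ℝ) ^ d.primeFactors.card *
        ∑ T ∈ (PP y z₀).powerset.filter (fun T : Finset ℕ => ∏ p ∈ T, p ≤ (2 ^ 2 ^ JJ z₀) ^ (C0 * b)),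
          |rr y N f t (d * ∏ p ∈ T, p)|) := by
      rw [mul_left_comm]
      refine mul_le_mul_of_nonneg_left ?_ (by positivity)
      exact mul_le_mul_of_nonneg_right (hc.bd d) hS
    linarith
  refine (abs_sum_le_sum_abs _ _).trans ((sum_le_sum hterm).trans ?_)
  rw [sum_add_distrib, ← mul_sum, ← mul_sum]
  have h5 := sum_c_div (D := Z) hc
  have h6 := err_le (N := N) (t := t) hD hyz f
  have hb0 : 0 ≤ (1 / 2 : ℝ) ^ b * (VP (PP y z₀) * W) := by positivity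
  have h7 := mul_le_mul_of_nonneg_left h5 hb0
  have h8 := mul_le_mul_of_nonneg_left h6 (by positivity : (0 : ℝ) ≤ (JJ z₀ : ℕ) + 2)
  have h9 : (1 / 2) ^ b * EE z₀ Z * (VP (PP y z₀) * W) = (1 / 2) ^ b * (VP (PP y z₀) * W) * EE z₀ Z := by ring
  rw [h9]
  linarith

end Pool.Agent.Y822.Q
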