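import Mathlib
import Pool.Agent.Y822.Q.Stp
import Pool.Agent.Y822.CTu
import Pool.Agent.Y822.Up
import Pool.Agent.Y822.G.Main

/-! The weights. -/

set_option autoImplicit false

namespace Pool.Agent.Y822.Q

open Finset Filter
open Pool.Agent.Y822
open Pool.Agent.W41 (JJ JJ_lt JJ_le)
open Pool.Agent.H373R2.T7 (pz Vz mem_pz)
open Pool.Agent.W25.UB (GG sq)

lemma VP_PP {y z : ℕ} (h : y ≤ z) : VP (PP y z) * Vz y = Vz z := by
  classical
  unfold VP Vz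
  rw [← prod_union]
  · congr 1
    ext p
    rw [mem_union, mem_PP, mem_pz, mem_pz]
    constructor
    · rintro (⟨⟨h1, h2⟩, h3⟩ | ⟨h1, h2⟩)
      · exact ⟨h2, h3⟩
      · exact ⟨h1.trans h, h2⟩
    · rintro ⟨h1, h2⟩
      by_cases h3 : p ≤ y
      · exact Or.inr ⟨h3, h2⟩
      · exact Or.inl ⟨⟨by omega, h1⟩, h2⟩
  · rw [disjoint_left]
    intro p hp hp'
    rw [mem_PP] at hp
    rw [mem_pz] at hp'
    omega

lemma VP_bd (y z : ℕ) : 0 ≤ VP (PP y z) ∧ VP (PP y z) ≤ 1 := by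
  unfold VP
  have hb : ∀ p ∈ PP y z, 0 ≤ 1 - 1 / (p : ℝ) ∧ 1 - 1 / (p : ℝ) ≤ 1 := by
    intro p hp
    have hp1 : (1 : ℝ) ≤ p := by exact_mod_cast (mem_PP.1 hp).2.one_lt.le
    have : 1 / (p : ℝ) ≤ 1 := by rw [div_le_one (by linarith)]; exact hp1
    have h0 : 0 ≤ 1 / (p : ℝ) := by positivity
    constructor <;> linarith
  exact ⟨prod_nonneg fun p hp => (hb p hp).1, prod_le_one (fun p hp => (hb p hp).1) fun p hp => (hb p hp).2⟩

lemma Vz_pos (y : ℕ) : 0 < Vz y := by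
  unfold Vz
  refine prod_pos fun p hp => ?_
  have : (2 : ℝ) ≤ p := by exact_mod_cast (mem_pz.1 hp).2.two_le
  rw [sub_pos, div_lt_one (by linarith)]
  linarith

/-- `V(z) ≤ 1 / log z` -/
lemma Vz_up (z : ℕ) (hz : 1 ≤ z) : Real.log z * Vz z ≤ 1 := by
  classical
  refine (GG_low z z hz).trans (le_of_eq ?_)
  unfold GG
  have h1 : sq (PP z z) z = {1} := by
    ext d
    simp only [Pool.Agent.W25.UB.sq, mem_filter, mem_Icc, mem_singleton]
    constructor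
    · rintro ⟨⟨h1, h2⟩, h3, h4⟩
      by_contra hne
      obtain ⟨p, hp, hpd⟩ := Nat.exists_prime_and_dvd hne
      have := mem_PP.1 (h4 p hp hpd)
      omega
    · rintro rfl
      exact ⟨⟨le_rfl, hz⟩, squarefree_one, fun p hp h => absurd (Nat.dvd_one.1 h) hp.one_lt.ne'⟩
  rw [h1]
  simp

/-- upper bound for the sum of the multiplicative function -/
lemma GG_le_EE (y z : ℕ) : GG (PP y z) z ≤ EE y z := by
  classical
  refine le_trans ?_ (sum_div_le y z)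
  unfold GG
  have hsub : sq (PP y z) z ⊆ SD y z := by
    intro d hd
    simp only [Pool.Agent.W25.UB.sq, mem_filter, mem_Icc] at hd
    rw [mem_SD]
    refine ⟨hd.1, hd.2.1, fun p hp hpy hpd => ?_⟩
    have := mem_PP.1 (hd.2.2 p hp hpd)
    omega
  refine (sum_le_sum fun d hd => ?_).trans (sum_le_sum_of_subset_of_nonneg hsub fun d _ _ => by positivity)
  have hd' := mem_SD.1 (hsub hd)
  have hsq := hd'.2.1
  have h3 : Nat.totient d = ∏ p ∈ d.primeFactors, (p - 1) := by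
    have h4 := Nat.totient_mul_prod_primeFactors d
    have h5 := Nat.prod_primeFactors_of_squarefree hsq
    rw [h5] at h4
    rw [mul_comm] at h4
    exact Nat.eq_of_mul_eq_mul_left (Nat.pos_of_ne_zero hsq.ne_zero) h4
  have h6 : d ≤ 3 ^ d.primeFactors.card * Nat.totient d := by
    calc d = ∏ p ∈ d.primeFactors, p := (Nat.prod_primeFactors_of_squarefree hsq).symm
      _ ≤ ∏ p ∈ d.primeFactors, 3 * (p - 1) := prod_le_prod' fun p hp => by
          have := (Nat.prime_of_mem_primeFactors hp).two_le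
          omega
      _ = _ := by rw [prod_mul_distrib, prod_const, ← h3]
  have h7 : (0 : ℝ) < Nat.totient d := by exact_mod_cast Nat.totient_pos.2 hd'.1.1
  have h8 : (0 : ℝ) < d := by exact_mod_cast hd'.1.1
  rw [div_le_div_iff₀ h7 h8, one_mul]
  exact_mod_cast h6

lemma EE_le (y N : ℕ) (h : y ≤ N) : EE y N ≤ (Vz y / Vz N) ^ 3 := by
  have h0 : Vz y / Vz N = ∏ p ∈ PP y N, 1 / (1 - 1 / (p : ℝ)) := by
    rw [← VP_PP h, div_mul_cancel_right₀ (Vz_pos y).ne']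
    unfold VP
    rw [prod_div_distrib, prod_const_one, one_div]
  rw [h0, ← prod_pow]
  unfold EE
  refine prod_le_prod (fun p _ => by positivity) fun p hp => ?_
  have hp2 : (2 : ℝ) ≤ p := by exact_mod_cast (mem_PP.1 hp).2.two_le
  have ht : 1 / (p : ℝ) ≤ 1 / 2 := one_div_le_one_div_of_le (by norm_num) hp2
  have ht0 : 0 < 1 / (p : ℝ) := by positivity
  have e : 3 / (p : ℝ) = 3 * (1 / p) := by ring
  rw [e]
  set t := 1 / (p : ℝ)
  have h3 : 0 < 1 - t := by linarith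
  rw [div_pow, one_pow, le_div_iff₀ (by positivity)]
  have e2 : (1 + 3 * t) * (1 - t) ^ 3 = 1 - t ^ 2 * (6 - 8 * t + 3 * t ^ 2) := by ring
  rw [e2]
  have : 0 ≤ t ^ 2 * (6 - 8 * t + 3 * t ^ 2) := by
    apply mul_nonneg (sq_nonneg _)
    nlinarith [sq_nonneg t]
  linarith

/-- choice of the parameters -/
lemma choose_b (C0 : ℕ) (c δ ε : ℝ) (hc : 0 < c) (hδ : 0 < δ) (hε : 0 < ε) :
    ∃ b : ℕ, C0 ≤ b ∧ 1 ≤ b ∧ (1 / 2 : ℝ) ^ b * ((4 * C0 * b / (c * δ)) ^ 3) ^ 2 ≤ ε := by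
  have h := tendsto_pow_const_div_const_pow_of_one_lt 6 (by norm_num : (1 : ℝ) < 2)
  set A : ℝ := (4 * C0 / (c * δ)) ^ 6 with hA
  have hA0 : 0 ≤ A := by positivity
  have h2 := (h.eventually (gt_mem_nhds (show (0 : ℝ) < ε / (A + 1) by positivity))).and
    (eventually_ge_atTop (max C0 1))
  obtain ⟨b, hb1, hb2⟩ := h2.exists
  refine ⟨b, (le_max_left _ _).trans hb2, (le_max_right _ _).trans hb2, ?_⟩
  have e : (1 / 2 : ℝ) ^ b * ((4 * C0 * b / (c * δ)) ^ 3) ^ 2 = A * ((b : ℝ) ^ 6 / 2 ^ b) := by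
    have e1 : 4 * (C0 : ℝ) * b / (c * δ) = 4 * C0 / (c * δ) * b := by ring
    rw [hA, e1, one_div, inv_pow, ← pow_mul, mul_pow]
    ring
  rw [e]
  rw [lt_div_iff₀ (by positivity)] at hb1
  have h0 : 0 ≤ (b : ℝ) ^ 6 / 2 ^ b := by positivity
  nlinarith

lemma th_le {c : ℕ → ℝ} {z₀ Z m M : ℕ} (hc : Co z₀ c) (hz : 2 ≤ z₀) (hm : 1 ≤ m) (hM : m ≤ M) :
    th c Z m ≤ 4 ^ Nat.log z₀ M := by
  unfold th
  rw [sum_SD hc (fun d => if d ∣ m then (1 : ℝ) else 0)]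
  refine le_trans (sum_le_sum fun d _ => ?_) (abs_ds_le (D := Z) hc hz hm hM)
  exact mul_le_mul_of_nonneg_right (le_abs_self _) (by split_ifs <;> norm_num)

/-- the interface -/
theorem wgt (ε δ' κ : ℝ) (hε : 0 < ε) (hε1 : ε ≤ 1) (hδ : 0 < δ') (hδ' : δ' ≤ 1 / 16) (hκ : 0 < κ) (hκ1 : κ ≤ 1) :
    ∃ ε₁ : ℝ, 0 < ε₁ ∧ ε₁ ≤ 1 ∧ ∃ M : ℝ, 2 ≤ M ∧ ∃ cs : ℝ, 0 < cs ∧ ∀ᶠ N : ℕ in atTop, ∃ (g : ℕ → ℝ) (u : ℝ),
    (∀ m, 0 ≤ g m ∧ g m ≤ 1) ∧ 0 ≤ u ∧ (1 + ε) * u ≤ 1 ∧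
    u * Vz (yN κ N) * (M * ((1 / 4 - 2 * δ') * Real.log N)) ≤ 1 ∧ cs / Real.log N ≤ u * Vz (yN κ N) ∧
    (∀ m, g m ≠ 0 → Ro ⌊(N : ℝ) ^ ε₁⌋₊ m) ∧
    (∀ m : ℕ, m ≤ 2 * N → m.Prime → Real.exp (Real.log N / 2) < m → g m = 1 / M) ∧
    (∀ D : ℕ, D = ⌊(N : ℝ) ^ (1 / 2 - δ')⌋₊ → ∀ f : ℕ → ℝ, (∀ n, 0 ≤ f n ∧ f n ≤ 1) → ∀ t ≤ N,
      |∑ n ∈ Icc 1 N, f n * g (n + t) - u * ∑ n ∈ Icc 1 N, f n * ro (yN κ N) (n + t)| ≤
        ε * (u * ∑ n ∈ Icc 1 N, f n * ro (yN κ N) (n + t)) + 4 * Real.log N * LD (yN κ N) D N f t) := by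
  classical
  obtain ⟨C0, hC0, STEP⟩ := stepQ
  obtain ⟨cz, hcz, VZ⟩ := Vz_sharp
  obtain ⟨b, hb1, hb2, hb3⟩ := choose_b C0 cz δ' ε hcz hδ hε
  have hC0r : (1 : ℝ) ≤ C0 := by exact_mod_cast hC0
  have hbr : (1 : ℝ) ≤ b := by exact_mod_cast hb2
  have hCb : (1 : ℝ) ≤ C0 * b := one_le_mul_of_one_le_of_one_le hC0r hbr
  obtain ⟨ε₁, hε₁⟩ : ∃ ε₁ : ℝ, ε₁ = δ' / (2 * C0 * b) := ⟨_, rfl⟩
  have hε₁0 : 0 < ε₁ := by rw [hε₁]; positivity
  have hε₁δ : ε₁ ≤ δ' := by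
    rw [hε₁]
    exact div_le_self hδ.le (by linarith)
  have hε₁m : ε₁ * (2 * C0 * b) = δ' := by rw [hε₁]; field_simp
  obtain ⟨CE, hCE⟩ : ∃ CE : ℝ, CE = (4 * C0 * b / (cz * δ')) ^ 3 := ⟨_, rfl⟩
  have hCE0 : 0 < CE := by rw [hCE]; positivity
  rw [← hCE] at hb3
  obtain ⟨m₀, hm₀⟩ : ∃ m₀ : ℕ, m₀ = ⌈4 / ε₁⌉₊ := ⟨_, rfl⟩
  have hm₀1 : 1 ≤ m₀ := by rw [hm₀]; exact Nat.one_le_ceil_iff.2 (by positivity)
  have hm₀2 : 4 / ε₁ ≤ m₀ := by rw [hm₀]; exact Nat.le_ceil _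
  obtain ⟨M, hM⟩ : ∃ M : ℝ, M = 4 ^ m₀ := ⟨_, rfl⟩
  have hM4 : 4 ≤ M := by
    rw [hM]
    calc (4 : ℝ) = 4 ^ 1 := (pow_one _).symm
      _ ≤ 4 ^ m₀ := pow_le_pow_right₀ (by norm_num) hm₀1
  have hM0 : 0 < M := by linarith
  refine ⟨ε₁, hε₁0, by linarith, M, by linarith, cz / (CE * M), by positivity, ?_⟩
  have e1 := ev_logN (eventually_ge_atTop (max 1 (max (2 / ε₁) (8 / (2 * δ')))))
  have e2 := ev_logN (Real.tendsto_log_atTop.eventually (eventually_ge_atTop (max 1 (1 / ε₁))))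
  filter_upwards [yN_facts κ hκ hκ1 (max C0 3) 8, e1, e2, eventually_ge_atTop 3] with N hyf f1 f2 hN3
  obtain ⟨y1, y2, y3, y4, y5⟩ := hyf
  set y := yN κ N with hy
  set L := Real.log N with hL
  have hL1 : 1 ≤ L := (le_max_left _ _).trans f1
  have hL2 : 2 / ε₁ ≤ L := ((le_max_left _ _).trans (le_max_right _ _)).trans f1
  have hL3 : 8 / (2 * δ') ≤ L := ((le_max_right _ _).trans (le_max_right _ _)).trans f1
  have hl1 : 1 ≤ Real.log L := (le_max_left _ _).trans f2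
  have hl2 : 1 / ε₁ ≤ Real.log L := (le_max_right _ _).trans f2
  have hL0 : 0 < L := by linarith
  have hN0 : (0 : ℝ) < N := by positivity
  have hNe : (N : ℝ) = Real.exp L := by rw [hL, Real.exp_log hN0]
  have hNr : (1 : ℝ) ≤ N := by exact_mod_cast (by omega : 1 ≤ N)
  have hNpow : ∀ x : ℝ, (N : ℝ) ^ x = Real.exp (x * L) := by
    intro x
    rw [Real.rpow_def_of_pos hN0, ← hL, mul_comm]
  have hC0y : C0 ≤ y := (le_max_left _ _).trans y5
  have hy3 : 3 ≤ y := (le_max_right _ _).trans y5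
  obtain ⟨z, z1, z2, z3, z4, z5⟩ := z_facts (2 * δ') (by positivity) (by linarith) N y hN3 y4 hL3
  rw [← hL] at z2 z5
  obtain ⟨z₀, hz₀⟩ : ∃ z₀ : ℕ, z₀ = ⌊(N : ℝ) ^ ε₁⌋₊ := ⟨_, rfl⟩
  have hz₀le : (z₀ : ℝ) ≤ Real.exp (ε₁ * L) := by
    rw [hz₀, ← hNpow]
    exact Nat.floor_le (by positivity)
  have hE2 : 2 ≤ Real.exp (ε₁ / 2 * L) := by
    have h1 := Real.add_one_le_exp (ε₁ / 2 * L)
    have h2 : 1 ≤ ε₁ / 2 * L := by
      rw [div_le_iff₀ hε₁0] at hL2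
      linarith
    linarith
  have hz₀ge : Real.exp (ε₁ / 2 * L) ≤ z₀ := by
    have h1 : (N : ℝ) ^ ε₁ < z₀ + 1 := by rw [hz₀]; exact Nat.lt_floor_add_one _
    have h2 : (N : ℝ) ^ ε₁ = Real.exp (ε₁ / 2 * L) * Real.exp (ε₁ / 2 * L) := by
      rw [hNpow, ← Real.exp_add]
      congr 1
      ring
    rw [h2] at h1
    nlinarith
  have hz₀2 : 2 ≤ z₀ := by exact_mod_cast hE2.trans hz₀ge
  have hz₀0 : (0 : ℝ) < z₀ := by positivity
  have hlogz₀ : ε₁ / 2 * L ≤ Real.log z₀ := by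
    rw [Real.le_log_iff_exp_le hz₀0]
    exact hz₀ge
  have hlogz₀' : Real.log z₀ ≤ ε₁ * L := by
    rw [Real.log_le_iff_le_exp hz₀0]
    exact hz₀le
  have hyz₀ : y ≤ z₀ := by
    rw [hz₀]
    apply Nat.le_floor
    rw [hNpow]
    refine y1.trans (Real.exp_le_exp.2 ?_)
    rw [div_le_iff₀ (by linarith)]
    have h1 : κ * L ≤ 1 * L := mul_le_mul_of_nonneg_right hκ1 hL0.le
    have h2 : 1 ≤ ε₁ * Real.log L := by
      rw [div_le_iff₀ hε₁0] at hl2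
      linarith
    have h3 : 1 * L ≤ ε₁ * Real.log L * L := mul_le_mul_of_nonneg_right h2 hL0.le
    linarith
  have hz₀3 : 3 ≤ z₀ := hy3.trans hyz₀
  have hexpL2 : Real.exp (ε₁ * L) ≤ Real.exp (L / 2) := by
    apply Real.exp_le_exp.2
    have : ε₁ * L ≤ 1 / 2 * L := mul_le_mul_of_nonneg_right (by linarith) hL0.le
    linarith
  have hexpLN : Real.exp (L / 2) ≤ N := by
    rw [hNe]
    exact Real.exp_le_exp.2 (by linarith)
  have hz₀N : z₀ ≤ N := by exact_mod_cast (hz₀le.trans hexpL2).trans hexpLN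
  have hzN : z ^ 2 ≤ N := by
    have h1 : ((z ^ 2 : ℕ) : ℝ) ≤ N := by
      refine z4.trans ?_
      calc (N : ℝ) ^ (1 / 2 - 2 * δ') ≤ (N : ℝ) ^ (1 : ℝ) := Real.rpow_le_rpow_of_exponent_le hNr (by linarith)
        _ = N := Real.rpow_one _
    exact_mod_cast h1
  have hzz : z ≤ z ^ 2 := by nlinarith
  -- the product bound
  have hEEN : EE z₀ N ≤ CE := by
    refine (EE_le z₀ N hz₀N).trans ?_
    rw [hCE]
    have hVN := Vz_pos N
    refine pow_le_pow_left₀ (div_nonneg (Vz_pos z₀).le hVN.le) ?_ 3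
    have h1 := Vz_up z₀ (by omega)
    have h2 := VZ N hN3
    rw [← hL] at h2
    have h3 : Vz z₀ ≤ 1 / (ε₁ / 2 * L) := by
      rw [le_div_iff₀ (by positivity)]
      calc Vz z₀ * (ε₁ / 2 * L) ≤ Vz z₀ * Real.log z₀ := mul_le_mul_of_nonneg_left hlogz₀ (Vz_pos z₀).le
        _ ≤ 1 := by linarith
    calc Vz z₀ / Vz N ≤ (1 / (ε₁ / 2 * L)) / (cz / L) := by
          apply div_le_div₀ (by positivity) h3 (by positivity) h2
      _ = 2 / (cz * ε₁) := by field_simp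
      _ = 4 * C0 * b / (cz * δ') := by
          rw [← hε₁m]
          field_simp
          ring
  have hEEZ : EE z₀ (z ^ 2) ≤ CE := (EE_mono z₀ hzN).trans hEEN
  obtain ⟨G0, hG0⟩ : ∃ G0 : ℝ, G0 = GG (PP z₀ z) z := ⟨_, rfl⟩
  have hG1 : 1 ≤ G0 := by rw [hG0]; exact one_le_GG z₀ z z1
  have hGE : G0 ≤ CE := by
    rw [hG0]
    exact (GG_le_EE z₀ z).trans ((EE_mono z₀ (hzz.trans hzN)).trans hEEN)
  have hG00 : 0 < G0 := by linarith
  obtain ⟨c, hc, hc1, hc2, hc3⟩ := sel z₀ z z1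
  rw [← hG0] at hc3
  have hth0 : ∀ m, 0 ≤ th c (z ^ 2) m := hc1
  have hthM : ∀ m, 1 ≤ m → m ≤ 2 * N → th c (z ^ 2) m ≤ M := by
    intro m h1 h2
    refine (th_le hc hz₀2 h1 h2).trans ?_
    rw [hM]
    refine pow_le_pow_right₀ (by norm_num) ?_
    have h3 : 2 * N < z₀ ^ (m₀ + 1) := by
      have h4 : ((2 * N : ℕ) : ℝ) < ((z₀ ^ (m₀ + 1) : ℕ) : ℝ) := by
        push_cast
        calc (2 : ℝ) * N ≤ Real.exp (ε₁ / 2 * L) * Real.exp L := by
              rw [← hNe]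
              exact mul_le_mul_of_nonneg_right hE2 hN0.le
          _ < Real.exp (ε₁ / 2 * L) * Real.exp (ε₁ / 2 * L * m₀) := by
              apply mul_lt_mul_of_pos_left _ (Real.exp_pos _)
              apply Real.exp_lt_exp.2
              rw [div_le_iff₀ hε₁0] at hm₀2
              have h5 : 2 * L ≤ ε₁ / 2 * L * m₀ := by
                have h6 : 4 * L ≤ m₀ * ε₁ * L := mul_le_mul_of_nonneg_right hm₀2 hL0.le
                have h7 : ε₁ / 2 * L * m₀ = m₀ * ε₁ * L / 2 := by ring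
                linarith
              linarith
          _ = Real.exp (ε₁ / 2 * L) ^ (m₀ + 1) := by
              rw [← Real.exp_add, ← Real.exp_nat_mul]
              congr 1
              push_cast
              ring
          _ ≤ (z₀ : ℝ) ^ (m₀ + 1) := pow_le_pow_left₀ (Real.exp_pos _).le hz₀ge _
      exact_mod_cast h4
    exact Nat.lt_succ_iff.1 (Nat.log_lt_of_lt_pow (by omega) h3)
  obtain ⟨hV0, hV1⟩ := VP_bd y z₀
  obtain ⟨g, hg⟩ : ∃ g : ℕ → ℝ, g = fun m => if 1 ≤ m ∧ m ≤ 2 * N then ro z₀ m * th c (z ^ 2) m / M else 0 := ⟨_, rfl⟩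
  obtain ⟨u, hu⟩ : ∃ u : ℝ, u = VP (PP y z₀) / (G0 * M) := ⟨_, rfl⟩
  have hGM : 0 < G0 * M := by positivity
  have hGM2 : 2 ≤ G0 * M := by nlinarith
  have hu0 : 0 ≤ u := by rw [hu]; positivity
  have hu2 : u ≤ 1 / 2 := by
    rw [hu, div_le_div_iff₀ hGM (by norm_num)]
    linarith
  have huV : u * Vz y = Vz z₀ / (G0 * M) := by
    rw [hu, div_mul_eq_mul_div, VP_PP hyz₀]
  refine ⟨g, u, ?_, hu0, ?_, ?_, ?_, ?_, ?_, ?_⟩
  · intro m
    rw [hg]
    simp only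
    split_ifs with h
    · have h1 := hth0 m
      have h2 := hthM m h.1 h.2
      have h3 := ro_nonneg z₀ m
      have h4 := ro_le_one z₀ m
      constructor
      · positivity
      · rw [div_le_one hM0]
        calc ro z₀ m * th c (z ^ 2) m ≤ 1 * M := mul_le_mul h4 h2 h1 (by norm_num)
          _ = M := one_mul _
    · exact ⟨le_rfl, zero_le_one⟩
  · calc (1 + ε) * u ≤ 2 * (1 / 2) := mul_le_mul (by linarith) hu2 hu0 (by norm_num)
      _ = 1 := by norm_num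
  · rw [huV, div_mul_eq_mul_div, div_le_one hGM]
    have h1 := GG_low z₀ z z1
    rw [← hG0] at h1
    calc Vz z₀ * (M * ((1 / 4 - 2 * δ') * L)) = M * (((1 / 4 - 2 * δ') * L) * Vz z₀) := by ring
      _ ≤ M * (Real.log z * Vz z₀) := by
          apply mul_le_mul_of_nonneg_left _ hM0.le
          exact mul_le_mul_of_nonneg_right z2 (Vz_pos z₀).le
      _ ≤ M * G0 := mul_le_mul_of_nonneg_left h1 hM0.le
      _ = G0 * M := mul_comm _ _
  · rw [huV]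
    have h1 := VZ z₀ hz₀3
    have hlz : 0 < Real.log z₀ := Real.log_pos (by exact_mod_cast (by omega : 1 < z₀))
    have h2 : Real.log z₀ ≤ L := by
      have : ε₁ * L ≤ 1 * L := mul_le_mul_of_nonneg_right (by linarith) hL0.le
      linarith
    have h3 : cz / L ≤ Vz z₀ := (div_le_div_of_nonneg_left hcz.le hlz h2).trans h1
    calc cz / (CE * M) / L = cz / L / (CE * M) := by ring
      _ ≤ Vz z₀ / (G0 * M) := by
          apply div_le_div₀ (Vz_pos z₀).le h3 hGM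
          exact mul_le_mul_of_nonneg_right hGE hM0.le
  · intro m hm
    rw [← hz₀]
    by_contra hR
    apply hm
    rw [hg]
    simp only
    unfold ro
    rw [if_neg hR]
    simp
  · intro m hm2 hmp hmz
    have hmz₀ : z₀ < m := by
      have : (z₀ : ℝ) < m := lt_of_le_of_lt (hz₀le.trans hexpL2) hmz
      exact_mod_cast this
    have hmz' : z < m := by
      have : (z : ℝ) < m := lt_of_le_of_lt z5 hmz
      exact_mod_cast this
    have hR : Ro z₀ m := by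
      intro p hp hpz hpd
      rw [(Nat.prime_dvd_prime_iff_eq hp hmp).1 hpd] at hpz
      omega
    have hth : th c (z ^ 2) m = 1 := by
      refine hc2 m fun p hp hpd => ?_
      have h1 := mem_PP.1 hp
      rw [(Nat.prime_dvd_prime_iff_eq h1.2 hmp).1 hpd] at h1
      omega
    rw [hg]
    simp only
    rw [if_pos ⟨hmp.one_lt.le, hm2⟩, hth]
    unfold ro
    rw [if_pos hR, one_mul]
  · intro D hD f hf t ht
    have hlev : z ^ 2 * (2 ^ 2 ^ JJ z₀) ^ (C0 * b) ≤ D := by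
      rw [hD]
      apply Nat.le_floor
      push_cast
      have h1 : ((2 ^ 2 ^ JJ z₀ : ℕ) : ℝ) ≤ (z₀ : ℝ) ^ 2 := by exact_mod_cast JJ_le z₀ hz₀2
      push_cast at h1 z4
      have h2 : ((2 : ℝ) ^ 2 ^ JJ z₀) ^ (C0 * b) ≤ (N : ℝ) ^ δ' := by
        calc ((2 : ℝ) ^ 2 ^ JJ z₀) ^ (C0 * b) ≤ ((z₀ : ℝ) ^ 2) ^ (C0 * b) := pow_le_pow_left₀ (by positivity) h1 _
          _ = (z₀ : ℝ) ^ (2 * C0 * b) := by rw [← pow_mul]; congr 1; ring
          _ ≤ Real.exp (ε₁ * L) ^ (2 * C0 * b) := pow_le_pow_left₀ hz₀0.le hz₀le _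
          _ = (N : ℝ) ^ δ' := by
              rw [← Real.exp_nat_mul, hNpow, ← hε₁m]
              congr 1
              push_cast
              ring
      calc (z : ℝ) ^ 2 * (2 ^ 2 ^ JJ z₀) ^ (C0 * b) ≤ (N : ℝ) ^ (1 / 2 - 2 * δ') * (N : ℝ) ^ δ' :=
            mul_le_mul z4 h2 (by positivity) (by positivity)
        _ = (N : ℝ) ^ (1 / 2 - δ') := by
            rw [← Real.rpow_add hN0]
            congr 1
            ring
    have h1 := STEP b y z₀ (z ^ 2) N D hb1 hC0y hyz₀ hlev c hc f (fun n => (hf n).1) t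
    rw [hc3] at h1
    set W := ∑ n ∈ Icc 1 N, f n * ro y (n + t) with hW
    have hW0 : 0 ≤ W := sum_nonneg fun n _ => mul_nonneg (hf n).1 (ro_nonneg _ _)
    have h2 : ∑ n ∈ Icc 1 N, f n * g (n + t) = (∑ n ∈ Icc 1 N, f n * (ro z₀ (n + t) * th c (z ^ 2) (n + t))) / M := by
      rw [sum_div]
      refine sum_congr rfl fun n hn => ?_
      rw [mem_Icc] at hn
      rw [hg]
      simp only
      rw [if_pos ⟨by omega, by omega⟩]
      ring
    have h3 : u * W = (1 / G0 * (VP (PP y z₀) * W)) / M := by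
      rw [hu]
      field_simp
    rw [h2, h3, ← sub_div, abs_div, abs_of_pos hM0, div_le_iff₀ hM0]
    refine h1.trans ?_
    have hJ := Pool.Agent.Y822.G.JJ_bd hN3 hz₀N hz₀2
    rw [← hL] at hJ
    have hLD := LD_nonneg y D N f t
    have h4 : ((JJ z₀ : ℕ) + 2 : ℝ) * LD y D N f t ≤ 4 * L * LD y D N f t * M := by
      have h5 := mul_le_mul_of_nonneg_right hJ hLD
      have h6 : 0 ≤ 4 * L * LD y D N f t := by positivity
      have h7 : 4 * L * LD y D N f t * 1 ≤ 4 * L * LD y D N f t * M := mul_le_mul_of_nonneg_left (by linarith) h6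
      linarith
    have h5 : (1 / 2 : ℝ) ^ b * EE z₀ (z ^ 2) * (VP (PP y z₀) * W) ≤
        ε * ((1 / G0 * (VP (PP y z₀) * W)) / M) * M := by
      have hVW : 0 ≤ VP (PP y z₀) * W := mul_nonneg hV0 hW0
      have h6 : ε * ((1 / G0 * (VP (PP y z₀) * W)) / M) * M = ε / G0 * (VP (PP y z₀) * W) := by field_simp
      rw [h6]
      apply mul_le_mul_of_nonneg_right _ hVW
      rw [le_div_iff₀ hG00]
      calc (1 / 2 : ℝ) ^ b * EE z₀ (z ^ 2) * G0 ≤ (1 / 2 : ℝ) ^ b * CE * CE := by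
            apply mul_le_mul _ hGE hG00.le (by positivity)
            exact mul_le_mul_of_nonneg_left hEEZ (by positivity)
        _ = (1 / 2 : ℝ) ^ b * CE ^ 2 := by ring
        _ ≤ ε := hb3
    rw [add_mul]
    linarith

end Pool.Agent.Y822.Q
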