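import Mathlib
import Pool.Agent.Y822.Q.Stm
import Pool.Agent.Y822.Q.Wgt
import Pool.Agent.Y822.Q.Cmb

/-! The quarter law for almost all tuples: the theorem. -/

set_option autoImplicit false

namespace Pool.Agent.Y822.Q

open Finset Filter Topology
open Pool.Agent.Y822
open Pool.Agent.H373R2.T7 (pz Vz mem_pz)
open Pool.Agent.H387R2.Uni (nuT Adm locT CT)

/-- the final computation, first part -/
lemma calc1 {k : ℕ} {x₁ M n L u V PT x S S0 T R P E : ℝ} (hx1 : 0 < x₁) (hx16 : x₁ ≤ 1 / 16)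
    (hI : 1 / 4 * (1 - 8 * x₁) + (k + 1 / 2) * (1 + x₁) ^ (k + 2) ≤ (k + 1) * (1 - x₁) ^ (k + 1) * (1 - 8 * x₁))
    (hM : 2 ≤ M) (hn : 0 < n) (hL : 1 ≤ L) (hu : 0 ≤ u) (hu1 : (1 + x₁) * u ≤ 1) (hV : 0 ≤ V) (hPT : 0 ≤ PT)
    (hx : 0 ≤ x) (hE : E ≤ x)
    (h1 : u * V * (M * ((1 / 4 - 2 * x₁) * L)) ≤ 1)
    (hR : R ≤ (1 + x₁) * (n * (PT * V ^ (k + 1))) + x)
    (hP : (1 - x₁) * (n / L * (PT * V ^ k)) - x ≤ P)
    (hS : ((1 - x₁) * u) ^ k * P - k * x ≤ S)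
    (hS0 : S0 ≤ ((1 + x₁) * u) ^ (k + 1) * R + (k + 1) * x)
    (hT : (k + 1) * ((4 / M) * (S - E)) - ((k + 1) - 1 / 2) * S0 ≤ T) :
    (u * V) ^ k * (n / L) * PT / M - 3 * (k + 1) * (k + 2) * x ≤ T := by
  have hL0 : 0 < L := by linarith
  have hM0 : 0 < M := by linarith
  obtain ⟨Y, hY⟩ : ∃ Y : ℝ, Y = (u * V) ^ k * (n / L) * PT := ⟨_, rfl⟩
  have hY0 : 0 ≤ Y := by rw [hY]; positivity
  have hk0 : (0 : ℝ) ≤ k := Nat.cast_nonneg _
  have h8 : 0 < 1 - 8 * x₁ := by linarith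
  -- lower bound for `S`
  have a1 : (1 - x₁) ^ (k + 1) * Y - (k + 1) * x ≤ S := by
    have b1 : 0 ≤ ((1 - x₁) * u) ^ k := pow_nonneg (mul_nonneg (by linarith) hu) _
    have b2 : ((1 - x₁) * u) ^ k ≤ 1 := by
      apply pow_le_one₀ (mul_nonneg (by linarith) hu)
      refine le_trans ?_ hu1
      exact mul_le_mul_of_nonneg_right (by linarith) hu
    have b3 := mul_le_mul_of_nonneg_left hP b1
    have b4 : ((1 - x₁) * u) ^ k * ((1 - x₁) * (n / L * (PT * V ^ k)) - x) =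
        (1 - x₁) ^ (k + 1) * Y - ((1 - x₁) * u) ^ k * x := by
      rw [hY]
      simp only [mul_pow, pow_succ]
      ring
    have b5 : ((1 - x₁) * u) ^ k * x ≤ 1 * x := mul_le_mul_of_nonneg_right b2 hx
    rw [b4] at b3
    have b6 : ((k : ℝ) + 1) * x = k * x + x := by ring
    rw [b6]
    linarith
  -- upper bound for `S0`
  have a2 : S0 ≤ (1 + x₁) ^ (k + 2) * (4 / (M * (1 - 8 * x₁))) * Y + (k + 2) * x := by
    have b1 : 0 ≤ ((1 + x₁) * u) ^ (k + 1) := by positivity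
    have b2 : ((1 + x₁) * u) ^ (k + 1) ≤ 1 := pow_le_one₀ (by positivity) hu1
    have b3 := mul_le_mul_of_nonneg_left hR b1
    have b4 : ((1 + x₁) * u) ^ (k + 1) * ((1 + x₁) * (n * (PT * V ^ (k + 1))) + x) =
        (1 + x₁) ^ (k + 2) * ((u * V * L) * Y) + ((1 + x₁) * u) ^ (k + 1) * x := by
      have hLL : u * V * L * Y = (u * V) ^ (k + 1) * n * PT := by
        rw [hY, pow_succ]
        field_simp
      rw [hLL]
      simp only [mul_pow, pow_succ]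
      ring
    have b5 : ((1 + x₁) * u) ^ (k + 1) * x ≤ 1 * x := mul_le_mul_of_nonneg_right b2 hx
    have b6 : u * V * L ≤ 4 / (M * (1 - 8 * x₁)) := by
      rw [le_div_iff₀ (by positivity)]
      have : u * V * L * (M * (1 - 8 * x₁)) = 4 * (u * V * (M * ((1 / 4 - 2 * x₁) * L))) := by ring
      rw [this]
      linarith
    have b7 : (1 + x₁) ^ (k + 2) * ((u * V * L) * Y) ≤ (1 + x₁) ^ (k + 2) * (4 / (M * (1 - 8 * x₁))) * Y := by
      rw [mul_assoc ((1 + x₁) ^ (k + 2)) (4 / (M * (1 - 8 * x₁))) Y]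
      apply mul_le_mul_of_nonneg_left _ (by positivity)
      exact mul_le_mul_of_nonneg_right b6 hY0
    rw [b4] at b3
    have b8 : ((k : ℝ) + 2) * x = (k + 1) * x + x := by ring
    rw [b8]
    linarith
  have a3 : ((k : ℝ) + 1) * (4 / M * ((1 - x₁) ^ (k + 1) * Y - (k + 2) * x)) ≤ (k + 1) * (4 / M * (S - E)) := by
    apply mul_le_mul_of_nonneg_left _ (by positivity)
    apply mul_le_mul_of_nonneg_left _ (by positivity)
    have : ((k : ℝ) + 2) * x = (k + 1) * x + x := by ring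
    linarith
  have a4 : (((k : ℝ) + 1) - 1 / 2) * S0 ≤ (k + 1 / 2) * ((1 + x₁) ^ (k + 2) * (4 / (M * (1 - 8 * x₁))) * Y + (k + 2) * x) := by
    have : ((k : ℝ) + 1) - 1 / 2 = k + 1 / 2 := by ring
    rw [this]
    exact mul_le_mul_of_nonneg_left a2 (by positivity)
  have a5 : Y / M ≤ ((k : ℝ) + 1) * (4 / M * ((1 - x₁) ^ (k + 1) * Y)) -
      (k + 1 / 2) * ((1 + x₁) ^ (k + 2) * (4 / (M * (1 - 8 * x₁))) * Y) := by
    have b1 : (1 / 4 * (1 - 8 * x₁)) * (4 * Y / (M * (1 - 8 * x₁))) ≤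
        ((k + 1) * (1 - x₁) ^ (k + 1) * (1 - 8 * x₁) - (k + 1 / 2) * (1 + x₁) ^ (k + 2)) *
          (4 * Y / (M * (1 - 8 * x₁))) :=
      mul_le_mul_of_nonneg_right (by linarith) (by positivity)
    have b2 : (1 / 4 * (1 - 8 * x₁)) * (4 * Y / (M * (1 - 8 * x₁))) = Y / M := by
      field_simp
    have c0 : (1 - 8 * x₁) * (4 * Y / (M * (1 - 8 * x₁))) = 4 * Y / M := by
      rw [mul_comm M, mul_div_assoc', mul_div_mul_left _ _ h8.ne']
    have c1 : 4 / M * ((1 - x₁) ^ (k + 1) * Y) = (1 - x₁) ^ (k + 1) * (1 - 8 * x₁) * (4 * Y / (M * (1 - 8 * x₁))) := by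
      rw [mul_assoc, c0]
      ring
    have c2 : (1 + x₁) ^ (k + 2) * (4 / (M * (1 - 8 * x₁))) * Y = (1 + x₁) ^ (k + 2) * (4 * Y / (M * (1 - 8 * x₁))) := by
      ring
    rw [c1, c2]
    have b3 : ((k + 1) * (1 - x₁) ^ (k + 1) * (1 - 8 * x₁) - (k + 1 / 2) * (1 + x₁) ^ (k + 2)) *
          (4 * Y / (M * (1 - 8 * x₁))) = ((k : ℝ) + 1) * ((1 - x₁) ^ (k + 1) * (1 - 8 * x₁) * (4 * Y / (M * (1 - 8 * x₁)))) -
      (k + 1 / 2) * ((1 + x₁) ^ (k + 2) * (4 * Y / (M * (1 - 8 * x₁)))) := by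
      ring
    rw [b2, b3] at b1
    exact b1
  have a6 : 4 / M ≤ 2 := by
    rw [div_le_iff₀ hM0]
    linarith
  have a7 : ((k : ℝ) + 1) * (4 / M * ((k + 2) * x)) ≤ (k + 1) * (2 * ((k + 2) * x)) := by
    apply mul_le_mul_of_nonneg_left _ (by positivity)
    exact mul_le_mul_of_nonneg_right a6 (by positivity)
  have a8 : ((k : ℝ) + 1 / 2) * ((k + 2) * x) ≤ (k + 1) * ((k + 2) * x) :=
    mul_le_mul_of_nonneg_right (by linarith) (by positivity)
  rw [← hY]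
  have e1 : ((k : ℝ) + 1) * (4 / M * ((1 - x₁) ^ (k + 1) * Y - (k + 2) * x)) =
      ((k : ℝ) + 1) * (4 / M * ((1 - x₁) ^ (k + 1) * Y)) - ((k : ℝ) + 1) * (4 / M * ((k + 2) * x)) := by ring
  have e2 : ((k : ℝ) + 1 / 2) * ((1 + x₁) ^ (k + 2) * (4 / (M * (1 - 8 * x₁))) * Y + (k + 2) * x) =
      (k + 1 / 2) * ((1 + x₁) ^ (k + 2) * (4 / (M * (1 - 8 * x₁))) * Y) + (k + 1 / 2) * ((k + 2) * x) := by ring
  have e3 : 3 * ((k : ℝ) + 1) * (k + 2) * x = (k + 1) * (2 * ((k + 2) * x)) + (k + 1) * ((k + 2) * x) := by ring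
  rw [e1] at a3
  rw [e2] at a4
  rw [e3]
  linarith

/-- the final computation, second part -/
lemma calc2 {k : ℕ} {M n L a PT CTT x T cs cp Cn : ℝ} (hM : 2 ≤ M) (hn : 0 < n) (hL : 1 ≤ L) (hcs : 0 < cs)
    (hcp : 0 < cp) (ha : cs / L ≤ a) (hPT : cp ≤ PT) (hCT : CTT ≤ 2 * PT) (hx : x = n / L ^ (k + 2))
    (hLb : 6 * M * (k + 1) * (k + 2) / (cs ^ k * cp) ≤ L)
    (hT : a ^ k * (n / L) * PT / M - 3 * (k + 1) * (k + 2) * x ≤ T) (hC : T ≤ (4 * (k + 1) + 1) * Cn) :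
    cs ^ k / (4 * M * (4 * (k + 1) + 1)) * CTT * (n / L ^ (k + 1)) ≤ Cn := by
  have hL0 : 0 < L := by linarith
  have hM0 : 0 < M := by linarith
  have hPT0 : 0 < PT := by linarith
  have a1 : cs ^ k * PT * (n / L ^ (k + 1)) ≤ a ^ k * (n / L) * PT := by
    have b1 : (cs / L) ^ k ≤ a ^ k := pow_le_pow_left₀ (by positivity) ha _
    calc cs ^ k * PT * (n / L ^ (k + 1)) = (cs / L) ^ k * (n / L) * PT := by
          rw [div_pow, pow_succ]
          field_simp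
      _ ≤ _ := by gcongr
  obtain ⟨Y, hY⟩ : ∃ Y : ℝ, Y = cs ^ k * PT * (n / L ^ (k + 1)) := ⟨_, rfl⟩
  have hY0 : 0 ≤ Y := by rw [hY]; positivity
  have a2 : 3 * (k + 1) * (k + 2) * x ≤ Y / (2 * M) := by
    have b1 : cs ^ k * cp * (n / L ^ (k + 1)) ≤ Y := by
      rw [hY]
      gcongr
    have b2 : x * L = n / L ^ (k + 1) := by
      rw [hx, show k + 2 = (k + 1) + 1 by ring, pow_succ]
      field_simp
    rw [div_le_iff₀ (by positivity)] at hLb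
    have hx0 : 0 ≤ x := by rw [hx]; positivity
    have b3 := mul_le_mul_of_nonneg_right hLb hx0
    rw [le_div_iff₀ (by positivity)]
    calc 3 * (k + 1) * (k + 2) * x * (2 * M) = 6 * M * (k + 1) * (k + 2) * x := by ring
      _ ≤ L * (cs ^ k * cp) * x := b3
      _ = cs ^ k * cp * (x * L) := by ring
      _ = cs ^ k * cp * (n / L ^ (k + 1)) := by rw [b2]
      _ ≤ Y := b1
  have a3 : Y / M ≤ a ^ k * (n / L) * PT / M := by
    rw [hY]
    exact div_le_div_of_nonneg_right a1 hM0.le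
  have a4 : Y / (2 * M) ≤ (4 * (k + 1) + 1) * Cn := by
    have : Y / M = Y / (2 * M) + Y / (2 * M) := by field_simp; ring
    linarith
  have a5 : cs ^ k * CTT * (n / L ^ (k + 1)) ≤ 2 * Y := by
    calc cs ^ k * CTT * (n / L ^ (k + 1)) ≤ cs ^ k * (2 * PT) * (n / L ^ (k + 1)) := by gcongr
      _ = 2 * Y := by rw [hY]; ring
  rw [div_le_iff₀ (by positivity)] at a4
  have hk : (0 : ℝ) < 4 * ((k : ℝ) + 1) + 1 := by positivity
  calc cs ^ k / (4 * M * (4 * (k + 1) + 1)) * CTT * (n / L ^ (k + 1)) =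
        (cs ^ k * CTT * (n / L ^ (k + 1))) / (4 * M * (4 * (k + 1) + 1)) := by ring
    _ ≤ 2 * Y / (4 * M * (4 * (k + 1) + 1)) := div_le_div_of_nonneg_right a5 (by positivity)
    _ ≤ Cn := by
        rw [div_le_iff₀ (by positivity)]
        linarith

open Classical in
lemma sum_ro (H : Finset ℕ) (y N : ℕ) (P : ℕ → Prop) :
    ∑ n ∈ Icc 1 N, (if P n then (1 : ℝ) else 0) * ∏ t ∈ H, ro y (n + t) =
      (((Icc 1 N).filter (fun n => P n ∧ ∀ t ∈ H, Ro y (n + t))).card : ℝ) := by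
  have h : ∀ n ∈ Icc 1 N, (if P n then (1 : ℝ) else 0) * ∏ t ∈ H, ro y (n + t) =
      if (P n ∧ ∀ t ∈ H, Ro y (n + t)) then (1 : ℝ) else 0 := by
    intro n _
    by_cases h2 : ∀ t ∈ H, Ro y (n + t)
    · have h3 : ∏ t ∈ H, ro y (n + t) = 1 := prod_eq_one fun s hs => by
        unfold ro
        rw [if_pos (h2 s hs)]
      rw [h3, mul_one]
      by_cases h1 : P n
      · rw [if_pos h1, if_pos ⟨h1, h2⟩]
      · rw [if_neg h1, if_neg (fun h => h1 h.1)]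
    · have h4 := h2
      push Not at h4
      obtain ⟨s, hs, hns⟩ := h4
      have h3 : ∏ t ∈ H, ro y (n + t) = 0 := prod_eq_zero hs (by unfold ro; rw [if_neg hns])
      rw [h3, mul_zero, if_neg (fun h => h2 h.2)]
  rw [sum_congr rfl h, ← sum_filter, sum_const, nsmul_eq_mul, mul_one]

open Classical in
/-- **the quarter law** -/
theorem quarter (PRM : PrmStm) (INT : IntStm) (k : ℕ) (hk : 1 ≤ k) : ∃ c : ℝ, 0 < c ∧ ∃ ε₁ : ℝ, 0 < ε₁ ∧ ε₁ ≤ 1 ∧
    ∃ B : ℕ, ∀ᶠ N : ℕ in atTop, ∀ A : Finset ℕ, (∀ a ∈ A, a ≤ N) → ∀ Bad : Finset (Finset ℕ),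
    (∀ H ∈ Bad, H ∈ A.powersetCard (k + 1) ∧ Adm H ∧
      (cnt H ⌊(N : ℝ) ^ ε₁⌋₊ N : ℝ) < c * CT H * (N / Real.log N ^ (k + 1))) →
    (Bad.card : ℝ) ≤ A.card.choose k * Real.log N ^ B := by
  obtain ⟨x₁, hx1, hx16, hI⟩ := exists_x k
  obtain ⟨κ, hκ, hκ1, C, HF⟩ := few_par (k + 4) x₁ hx1 (by linarith)
  obtain ⟨ε₁, hε₁, hε₁1, M, hM, cs, hcs, HW⟩ := wgt x₁ x₁ κ hx1 (by linarith) hx1 hx16 hκ hκ1
  obtain ⟨cp, hcp, hlow⟩ := PT_low k
  have hprm := PRM k κ x₁ (k + 2) hκ hκ1 hx1 (by linarith)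
  have hint := INT k κ x₁ (k + 2) hκ hκ1 hx1 (by linarith)
  refine ⟨cs ^ k / (4 * M * (4 * (k + 1) + 1)), by positivity, ε₁, hε₁, hε₁1, C + 1, ?_⟩
  have e1 := ev_logN (eventually_ge_atTop (max (max 4 ((2 : ℝ) ^ k + k ^ 2 * 2 ^ (k - 1)))
    (max (6 * M * (k + 1) * (k + 2) / (cs ^ k * cp)) (4 * ((k : ℝ) + 1) ^ 3))))
  have e2 := ev_logN (ev_pow_exp (k + 2) (1 / 2) 1 (by norm_num))
  filter_upwards [HF, HW, hprm, hint, yN_facts κ hκ hκ1 3 1, e1, e2, eventually_ge_atTop 3]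
    with N HF HW hprm hint hyf h1 h2 hN3
  intro A hA Bad hBad
  obtain ⟨g, u, hg, hu0, hu1, hup, hulow, hgR, hgP, hstep⟩ := HW
  obtain ⟨y1, y2, y3, y4, y5⟩ := hyf
  set y := yN κ N with hy
  set L := Real.log N with hLd
  have hN0 : (0 : ℝ) < N := by positivity
  have hL4 : 4 ≤ L := ((le_max_left _ _).trans (le_max_left _ _)).trans h1
  have hL2k : (2 : ℝ) ^ k + k ^ 2 * 2 ^ (k - 1) ≤ L := ((le_max_right _ _).trans (le_max_left _ _)).trans h1
  have hLb : 6 * M * (k + 1) * (k + 2) / (cs ^ k * cp) ≤ L := ((le_max_left _ _).trans (le_max_right _ _)).trans h1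
  have hLk : 4 * ((k : ℝ) + 1) ^ 3 ≤ L := ((le_max_right _ _).trans (le_max_right _ _)).trans h1
  have hL0 : 0 < L := by linarith
  have hL1 : 1 ≤ L := by linarith
  obtain ⟨x, hx⟩ : ∃ x : ℝ, x = N / L ^ (k + 2) := ⟨_, rfl⟩
  have hx0 : 0 ≤ x := by rw [hx]; positivity
  have hE : Real.exp (L / 2) ≤ x := by
    rw [hx, le_div_iff₀ (by positivity)]
    have h3 : (N : ℝ) = Real.exp (L / 2) * Real.exp (L / 2) := by
      rw [← Real.exp_add, add_halves, hLd, Real.exp_log hN0]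
    rw [h3]
    apply mul_le_mul_of_nonneg_left _ (Real.exp_pos _).le
    have h4 : (1 : ℝ) / 2 * L = L / 2 := by ring
    rw [one_mul, h4] at h2
    exact h2
  obtain ⟨D, hD⟩ : ∃ D : ℕ, D = ⌊(N : ℝ) ^ (1 / 2 - x₁)⌋₊ := ⟨_, rfl⟩
  have hDle : (D : ℝ) ≤ (N : ℝ) ^ (1 / 2 - x₁) := by
    rw [hD]
    exact Nat.floor_le (by positivity)
  obtain ⟨Z, hZ⟩ : ∃ Z : (ℕ → ℝ) → ℕ → ℝ, Z = fun f t => if t ≤ N then 4 * L * LD y D N f t else x + 1 := ⟨_, rfl⟩
  have hfew : ∀ f : ℕ → ℝ, (∀ n, |f n| ≤ 1) → ∀ S : Finset ℕ, (∀ a ∈ S, a ≤ N ∧ x < Z f a) →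
      (S.card : ℝ) ≤ L ^ C := by
    intro f hf S hS
    refine HF D hDle f hf S (fun a ha => ⟨(hS a ha).1, ?_⟩)
    obtain ⟨h3, h4⟩ := hS a ha
    rw [hZ] at h4
    simp only [if_pos h3] at h4
    rw [div_lt_iff₀ (by positivity)]
    rw [hx, div_lt_iff₀ (by positivity)] at h4
    have hLD := LD_nonneg y D N f a
    have h5 : 4 * L * LD y D N f a * L ^ (k + 2) ≤ LD y D N f a * L ^ (k + 4) := by
      have h6 : 4 * L ≤ L ^ 2 := by
        rw [sq]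
        exact mul_le_mul_of_nonneg_right hL4 hL0.le
      calc 4 * L * LD y D N f a * L ^ (k + 2) = (4 * L) * (LD y D N f a * L ^ (k + 2)) := by ring
        _ ≤ L ^ 2 * (LD y D N f a * L ^ (k + 2)) := mul_le_mul_of_nonneg_right h6 (by positivity)
        _ = _ := by ring
    linarith
  have hstepU : ∀ f : ℕ → ℝ, (∀ n, 0 ≤ f n ∧ f n ≤ 1) → ∀ h : ℕ, Z f h ≤ x →
      ∑ n ∈ Icc 1 N, f n * g (n + h) ≤ ((1 + x₁) * u) * ∑ n ∈ Icc 1 N, f n * ro y (n + h) + x := by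
    intro f hf t hZt
    rw [hZ] at hZt
    simp only at hZt
    split_ifs at hZt with h3
    · have h4 := (abs_le.1 (hstep D hD f hf t h3)).2
      linarith
    · linarith
  have hstepL : ∀ f : ℕ → ℝ, (∀ n, 0 ≤ f n ∧ f n ≤ 1) → ∀ h : ℕ, Z f h ≤ x →
      ((1 - x₁) * u) * ∑ n ∈ Icc 1 N, f n * ro y (n + h) - x ≤ ∑ n ∈ Icc 1 N, f n * g (n + h) := by
    intro f hf t hZt
    rw [hZ] at hZt
    simp only at hZt
    split_ifs at hZt with h3
    · have h4 := (abs_le.1 (hstep D hD f hf t h3)).1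
      linarith
    · linarith
  have hone : ∀ n : ℕ, (0 : ℝ) ≤ (fun _ : ℕ => (1 : ℝ)) n ∧ (fun _ : ℕ => (1 : ℝ)) n ≤ 1 :=
    fun n => ⟨zero_le_one, le_rfl⟩
  have heP : ∀ i n : ℕ, 0 ≤ (fun (i n : ℕ) => eP (n + i)) i n ∧ (fun (i n : ℕ) => eP (n + i)) i n ≤ 1 :=
    fun i n => eP_bd _
  obtain ⟨j, rfl⟩ : ∃ j, k = j + 1 := ⟨k - 1, by omega⟩
  -- bad sets are not good
  have hbad : ∀ H ∈ Bad, H ∈ A.powersetCard (j + 2) ∧
      ¬ (Good (fun _ => (1 : ℝ)) g (ro y) Z x H ∧ ∀ i ∈ H, Good ((fun (i n : ℕ) => eP (n + i)) i) g (ro y) Z x (H.erase i)) := by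
    intro H hH
    obtain ⟨b1, b2, b3⟩ := hBad H hH
    refine ⟨b1, fun hgood => ?_⟩
    obtain ⟨good0, goodi⟩ := hgood
    rw [mem_powersetCard] at b1
    have hHc : H.card = j + 1 + 1 := b1.2
    have hHN : ∀ h ∈ H, h ≤ N := fun h hh => hA h (b1.1 hh)
    obtain ⟨c1, c2⟩ := hlow H hHc b2
    have hCP : CT H ≤ 2 * PT H y := CT_le hLd hL1 y5 y3 (by push_cast at hLk ⊢; exact hLk) hHc hHN
    -- the sum of all the weights
    have hS0 := step_upper (N := N) hx0 (mul_nonneg (by linarith) hu0) hu1 hone hg (ro_bd y) hstepU good0 H (subset_refl _)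
    have hS0' : ∑ n ∈ Icc 1 N, WH (fun _ => (1 : ℝ)) g (ro y) H H n = ∑ n ∈ Icc 1 N, ∏ t ∈ H, g (n + t) := by
      refine sum_congr rfl fun n _ => ?_
      unfold WH
      rw [Finset.sdiff_self, prod_empty, mul_one, one_mul]
    have hR' : ∑ n ∈ Icc 1 N, WH (fun _ => (1 : ℝ)) g (ro y) H ∅ n =
        (((Icc 1 N).filter (fun n => ∀ t ∈ H, Ro y (n + t))).card : ℝ) := by
      have := sum_ro H y N (fun _ => True)
      simp only [if_true, true_and] at this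
      rw [← this]
      refine sum_congr rfl fun n _ => ?_
      unfold WH
      rw [prod_empty, one_mul, sdiff_empty]
    rw [hS0', hR', hHc] at hS0
    -- the sums over primes
    have hSi : ∀ i ∈ H, ((1 - x₁) * u) ^ (j + 1) *
        (((Icc 1 N).filter (fun n => (n + i).Prime ∧ ∀ t ∈ H.erase i, Ro y (n + t))).card : ℝ) - (j + 1 : ℕ) * x ≤
        ∑ n ∈ Icc 1 N, eP (n + i) * ∏ t ∈ H.erase i, g (n + t) := by
      intro i hi
      have hu1' : (1 - x₁) * u ≤ 1 := by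
        refine le_trans ?_ hu1
        exact mul_le_mul_of_nonneg_right (by linarith) hu0
      have h3 := step_lower (N := N) hx0 (mul_nonneg (by linarith) hu0) hu1' (heP i) hg (ro_bd y) hstepL (goodi i hi)
        (H.erase i) (subset_refl _)
      have h4 : (H.erase i).card = j + 1 := by rw [card_erase_of_mem hi, hHc]; rfl
      rw [h4] at h3
      have h5 : ∑ n ∈ Icc 1 N, WH ((fun (i n : ℕ) => eP (n + i)) i) g (ro y) (H.erase i) (H.erase i) n =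
          ∑ n ∈ Icc 1 N, eP (n + i) * ∏ t ∈ H.erase i, g (n + t) := by
        refine sum_congr rfl fun n _ => ?_
        unfold WH
        rw [Finset.sdiff_self, prod_empty, mul_one]
      have h6 : ∑ n ∈ Icc 1 N, WH ((fun (i n : ℕ) => eP (n + i)) i) g (ro y) (H.erase i) ∅ n =
          (((Icc 1 N).filter (fun n => (n + i).Prime ∧ ∀ t ∈ H.erase i, Ro y (n + t))).card : ℝ) := by
        refine Eq.trans ?_ ((sum_ro (H.erase i) y N (fun n => (n + i).Prime)).trans (by congr!))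
        refine sum_congr rfl fun n _ => ?_
        unfold WH eP
        simp only [prod_empty, one_mul, sdiff_empty]
        by_cases hpn : (n + i).Prime
        · simp [hpn]
        · simp [hpn]
      rw [h5, h6] at h3
      exact h3
    -- the comparison
    have hTg := T_ge (N := N) (M := M) (E := Real.exp (L / 2)) hg (by linarith) (Real.exp_pos _).le hgP H hHN
    have hTl := T_le (N := N) hg hgR H
    obtain ⟨T, hTd⟩ : ∃ T : ℝ, T = ∑ n ∈ Icc 1 N, (∏ t ∈ H, g (n + t)) *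
      (4 * (∑ i ∈ H, eP (n + i)) - (H.card : ℝ) + 1 / 2) := ⟨_, rfl⟩
    rw [← hTd] at hTg hTl
    rw [hHc] at hTg hTl
    -- all the sums over primes are at least `S`
    obtain ⟨P, hP⟩ : ∃ P : ℝ, P = (1 - x₁) * (N / L * (PT H y * Vz y ^ (j + 1))) - N / L ^ (j + 1 + 2) := ⟨_, rfl⟩
    obtain ⟨S, hS⟩ : ∃ S : ℝ, S = ((1 - x₁) * u) ^ (j + 1) * P - (j + 1 : ℕ) * x := ⟨_, rfl⟩
    have hSle : ∀ i ∈ H, S ≤ ∑ n ∈ Icc 1 N, eP (n + i) * ∏ t ∈ H.erase i, g (n + t) := by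
      intro i hi
      refine le_trans ?_ (hSi i hi)
      rw [hS]
      apply sub_le_sub_right
      apply mul_le_mul_of_nonneg_left _ (pow_nonneg (mul_nonneg (by linarith) hu0) _)
      rw [hP]
      exact hprm H hHc hHN i hi
    have hsumS : ((j + 1 : ℕ) + 1 : ℝ) * ((4 / M) * (S - Real.exp (L / 2))) ≤
        ∑ i ∈ H, (4 / M) * (∑ n ∈ Icc 1 N, eP (n + i) * ∏ t ∈ H.erase i, g (n + t) - Real.exp (L / 2)) := by
      have h3 : ∑ _i ∈ H, (4 / M) * (S - Real.exp (L / 2)) ≤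
          ∑ i ∈ H, (4 / M) * (∑ n ∈ Icc 1 N, eP (n + i) * ∏ t ∈ H.erase i, g (n + t) - Real.exp (L / 2)) := by
        refine sum_le_sum fun i hi => ?_
        apply mul_le_mul_of_nonneg_left _ (by positivity)
        exact sub_le_sub_right (hSle i hi) _
      rw [sum_const, hHc, nsmul_eq_mul] at h3
      push_cast at h3 ⊢
      exact h3
    have hRb := (abs_le.1 (hint H hHc)).2
    have key := calc1 (k := j + 1) (x₁ := x₁) (M := M) (n := N) (L := L) (u := u) (V := Vz y) (PT := PT H y)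
      (x := x) (S := S) (S0 := ∑ n ∈ Icc 1 N, ∏ t ∈ H, g (n + t)) (T := T)
      (R := (((Icc 1 N).filter (fun n => ∀ t ∈ H, Ro y (n + t))).card : ℝ)) (P := P) (E := Real.exp (L / 2))
      hx1 hx16 hI hM hN0 hL1 hu0 hu1 (Vz_pos y).le (PT_nonneg _ _) hx0 hE hup
      (by rw [hx]; linarith)
      (by rw [hP, hx])
      (by rw [hS])
      (by push_cast at hS0 ⊢; linarith)
      (by push_cast at hTg hsumS ⊢; linarith)
    have hfin := calc2 (k := j + 1) (M := M) (n := N) (L := L) (a := u * Vz y) (PT := PT H y) (CTT := CT H)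
      (x := x) (T := T) (cs := cs) (cp := cp) (Cn := (cnt H ⌊(N : ℝ) ^ ε₁⌋₊ N : ℝ)) hM hN0 hL1 hcs hcp hulow (c1 y) hCP hx hLb key
      (by push_cast at hTl ⊢; linarith)
    linarith
  have hfinal := few_bad2 (N := N) (K := L ^ C) (by positivity) heP hg (ro_bd y) hfew j A hA Bad hbad
  refine hfinal.trans (mul_le_mul_of_nonneg_left ?_ (Nat.cast_nonneg _))
  rw [pow_succ L C, mul_comm]
  apply mul_le_mul_of_nonneg_left _ (by positivity)
  have h3 : (((j + 1 : ℕ) : ℝ)) = (j : ℝ) + 1 := by push_cast; ring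
  rw [h3] at hL2k
  exact hL2k

end Pool.Agent.Y822.Q
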